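import Pool.Agent.V5helper39.BM.Ksep
import Pool.Agent.V5helper39.BM.Apx
import Pool.Agent.V5helper39.BM.Ode

set_option autoImplicit false

/-! # Types of sequences of unit vectors which dominate the norm

For a proposition `wn`: if `wn` holds then only weakly null sequences are considered. -/

namespace Pool.Agent.V5helper39.BG

open Filter Topology Set
open Pool.Agent.V5helper39.BM

/-- types of sequences of unit vectors (weakly null if `wn` holds) which dominate the norm -/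
def WG (wn : Prop) (E : Type) [NormedAddCommGroup E] [NormedSpace ℝ E] : Set (E → ℝ) :=
  {τ | ∃ y : ℕ → E, (∀ n, ‖y n‖ = 1) ∧
    (wn → ∀ φ : StrongDual ℝ E, Tendsto (fun n => φ (y n)) atTop (𝓝 0)) ∧
    (∀ x, Tendsto (fun n => ‖x + y n‖) atTop (𝓝 (τ x))) ∧ ∀ x, ‖x‖ ≤ τ x}

/-- the closure -/
def KG (wn : Prop) (E : Type) [NormedAddCommGroup E] [NormedSpace ℝ E] : Set (E → ℝ) :=
  closure (WG wn E)

section

variable {wn : Prop} {E : Type} [NormedAddCommGroup E] [NormedSpace ℝ E]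

lemma KG_sub {S : Set (E → ℝ)} (hS : IsClosed S) (h : ∀ τ ∈ WG wn E, τ ∈ S) {τ : E → ℝ}
    (hτ : τ ∈ KG wn E) : τ ∈ S := closure_minimal h hS hτ

lemma WG_sub_KG {τ : E → ℝ} (hτ : τ ∈ WG wn E) : τ ∈ KG wn E := subset_closure hτ

/-- types of unit vectors -/
def UT (E : Type) [NormedAddCommGroup E] [NormedSpace ℝ E] : Set (E → ℝ) :=
  closure (range fun (y : {y : E // ‖y‖ = 1}) (v : E) => ‖v + y.1‖)

lemma UT_sub {S : Set (E → ℝ)} (hS : IsClosed S)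
    (h : ∀ y : E, ‖y‖ = 1 → (fun v : E => ‖v + y‖) ∈ S) {τ : E → ℝ} (hτ : τ ∈ UT E) : τ ∈ S := by
  refine closure_minimal ?_ hS hτ
  rintro _ ⟨y, rfl⟩
  exact h y.1 y.2

lemma UT_of_lim {y : ℕ → E} (hy : ∀ n, ‖y n‖ = 1) {τ : E → ℝ}
    (h : ∀ x, Tendsto (fun n => ‖x + y n‖) atTop (𝓝 (τ x))) : τ ∈ UT E :=
  mem_closure_of_tendsto (tendsto_pi_nhds.2 h) (Eventually.of_forall fun n => ⟨⟨y n, hy n⟩, rfl⟩)

lemma KG_sub_UT : KG wn E ⊆ UT E := by
  refine closure_minimal ?_ isClosed_closure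
  rintro τ ⟨y, hy, -, h, -⟩
  exact UT_of_lim hy h

lemma UT_range {τ : E → ℝ} (hτ : τ ∈ UT E) (v : E) : |τ v - ‖v‖| ≤ 1 := by
  refine UT_sub (S := {τ : E → ℝ | |τ v - ‖v‖| ≤ 1}) ?_ ?_ hτ
  · exact isClosed_le (by fun_prop) continuous_const
  · intro y hy
    have h1 := abs_norm_sub_norm_le (v + y) v
    rw [add_sub_cancel_left, hy] at h1
    exact h1

lemma UT_zero {τ : E → ℝ} (hτ : τ ∈ UT E) : τ 0 = 1 := by
  refine UT_sub (S := {τ : E → ℝ | τ 0 = 1}) ?_ ?_ hτ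
  · exact isClosed_eq (by fun_prop) continuous_const
  · intro y hy
    show ‖0 + y‖ = 1
    rw [zero_add, hy]

lemma UT_lip {τ : E → ℝ} (hτ : τ ∈ UT E) (x x' : E) : |τ x - τ x'| ≤ ‖x - x'‖ := by
  refine UT_sub (S := {τ : E → ℝ | |τ x - τ x'| ≤ ‖x - x'‖}) ?_ ?_ hτ
  · exact isClosed_le (by fun_prop) continuous_const
  · intro y hy
    have h1 := abs_norm_sub_norm_le (x + y) (x' + y)
    rwa [add_sub_add_right_eq_sub] at h1

lemma UT_comp {τ : E → ℝ} (hτ : τ ∈ UT E) (T : E ≃ₗᵢ[ℝ] E) : (fun v => τ (T v)) ∈ UT E := by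
  refine UT_sub (S := {τ : E → ℝ | (fun v => τ (T v)) ∈ UT E}) ?_ ?_ hτ
  · refine isClosed_closure.preimage (f := fun (τ : E → ℝ) (v : E) => τ (T v)) ?_
    fun_prop
  · intro y hy
    refine subset_closure ⟨⟨T.symm y, by rw [T.symm.norm_map, hy]⟩, ?_⟩
    funext v
    show ‖v + T.symm y‖ = ‖T v + y‖
    rw [← T.norm_map (v + T.symm y), map_add, T.apply_symm_apply]

lemma UT_nonneg {τ : E → ℝ} (hτ : τ ∈ UT E) (v : E) : 0 ≤ τ v := by
  refine UT_sub (S := {τ : E → ℝ | 0 ≤ τ v}) ?_ ?_ hτ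
  · exact isClosed_le continuous_const (by fun_prop)
  · intro y hy
    exact norm_nonneg _

lemma UT_le {τ : E → ℝ} (hτ : τ ∈ UT E) (v : E) : τ v ≤ 1 + ‖v‖ := by
  have := (abs_le.1 (UT_range hτ v)).2
  linarith

lemma UT_compact : IsCompact (UT E) := by
  refine IsCompact.of_isClosed_subset (s := Set.univ.pi fun v : E => Icc (0 : ℝ) (1 + ‖v‖))
    (isCompact_univ_pi fun v => isCompact_Icc) isClosed_closure ?_
  intro τ hτ v _
  exact ⟨UT_nonneg hτ v, UT_le hτ v⟩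

/-- rescaled types -/
lemma UT_scale {τ : E → ℝ} (hτ : τ ∈ UT E) {R : ℝ} (hR : 1 ≤ R) :
    (fun u => R⁻¹ * τ (R • u)) ∈ Typ E := by
  have hR0 : 0 < R := by linarith
  refine UT_sub (S := {τ : E → ℝ | (fun u => R⁻¹ * τ (R • u)) ∈ Typ E}) ?_ ?_ hτ
  · refine isClosed_closure.preimage (f := fun (τ : E → ℝ) (u : E) => R⁻¹ * τ (R • u)) ?_
    fun_prop
  · intro y hy
    refine subset_closure ⟨R⁻¹ • y, ?_, ?_⟩
    · rw [norm_smul, hy, mul_one, norm_inv, Real.norm_eq_abs, abs_of_pos hR0]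
      exact inv_le_one_of_one_le₀ hR
    · funext u
      show R⁻¹ * ‖R • u + y‖ = ‖u + R⁻¹ • y‖
      have : u + R⁻¹ • y = R⁻¹ • (R • u + y) := by
        rw [smul_add, smul_smul, inv_mul_cancel₀ hR0.ne', one_smul]
      rw [this, norm_smul, norm_inv, Real.norm_eq_abs, abs_of_pos hR0]

/-- points of the closure are limits of sequences -/
lemma seq_of_closure [TopologicalSpace.SeparableSpace E] {ι : Type} (g : ι → E → ℝ)
    (hg : ∀ i x x', |g i x - g i x'| ≤ ‖x - x'‖) {f : E → ℝ} (hf : f ∈ closure (range g)) :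
    ∃ i : ℕ → ι, ∀ x, Tendsto (fun n => g (i n) x) atTop (𝓝 (f x)) := by
  have hfl : ∀ x x', |f x - f x'| ≤ ‖x - x'‖ := by
    intro x x'
    refine closure_minimal (t := {f : E → ℝ | |f x - f x'| ≤ ‖x - x'‖}) ?_
      (isClosed_le (by fun_prop) continuous_const) hf
    rintro _ ⟨i, rfl⟩
    exact hg i x x'
  obtain ⟨D, hD⟩ := TopologicalSpace.exists_dense_seq E
  have hex : ∀ m : ℕ, ∃ i : ι, ∀ k ∈ Finset.range (m + 1),
      |g i (D k) - f (D k)| < 1 / ((m : ℝ) + 1) := by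
    intro m
    have hopen : IsOpen {σ : E → ℝ | ∀ k ∈ Finset.range (m + 1),
        |σ (D k) - f (D k)| < 1 / ((m : ℝ) + 1)} := by
      have : {σ : E → ℝ | ∀ k ∈ Finset.range (m + 1),
        |σ (D k) - f (D k)| < 1 / ((m : ℝ) + 1)} =
        ⋂ k ∈ Finset.range (m + 1), {σ : E → ℝ | |σ (D k) - f (D k)| < 1 / ((m : ℝ) + 1)} := by
        ext; simp
      rw [this]
      exact isOpen_biInter_finset fun i _ => isOpen_lt (by fun_prop) continuous_const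
    obtain ⟨σ, hσ, i, rfl⟩ := mem_closure_iff.1 hf _ hopen
      (by
        intro i _
        simp only [sub_self, abs_zero]
        positivity)
    exact ⟨i, hσ⟩
  choose i hi using hex
  refine ⟨i, fun x => ?_⟩
  rw [Metric.tendsto_atTop]
  intro ε hε
  obtain ⟨_, ⟨k, rfl⟩, hk⟩ := Metric.mem_closure_iff.1 (hD x) (ε / 3) (by positivity)
  rw [dist_eq_norm] at hk
  obtain ⟨N, hN⟩ := exists_nat_one_div_lt (show (0 : ℝ) < ε / 3 by positivity)
  refine ⟨max N k, fun m hm => ?_⟩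
  have h1 := hi m k (Finset.mem_range.2 (Nat.lt_succ_of_le ((le_max_right _ _).trans hm)))
  have h2 : 1 / ((m : ℝ) + 1) ≤ 1 / ((N : ℝ) + 1) := by
    apply one_div_le_one_div_of_le (by positivity)
    have : (N : ℝ) ≤ m := by exact_mod_cast (le_max_left _ _).trans hm
    linarith
  have h3 := hfl x (D k)
  have h4 := hg (i m) x (D k)
  rw [Real.dist_eq]
  rw [abs_lt] at h1 ⊢
  rw [abs_le] at h3 h4
  constructor <;> linarith [h1.1, h1.2, h3.1, h3.2, h4.1, h4.2]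

/-- representing sequences -/
theorem UT_seq [TopologicalSpace.SeparableSpace E] {τ : E → ℝ} (hτ : τ ∈ UT E) :
    ∃ y : ℕ → E, (∀ n, ‖y n‖ = 1) ∧ ∀ x, Tendsto (fun n => ‖x + y n‖) atTop (𝓝 (τ x)) := by
  obtain ⟨y, hy⟩ := seq_of_closure _ (fun y x x' => by
    have := abs_norm_sub_norm_le (x + y.1) (x' + y.1)
    rwa [add_sub_add_right_eq_sub] at this) hτ
  exact ⟨fun n => (y n).1, fun n => (y n).2, hy⟩

lemma KG_range {τ : E → ℝ} (hτ : τ ∈ KG wn E) (v : E) : |τ v - ‖v‖| ≤ 1 :=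
  UT_range (KG_sub_UT hτ) v

lemma KG_zero {τ : E → ℝ} (hτ : τ ∈ KG wn E) : τ 0 = 1 := UT_zero (KG_sub_UT hτ)

lemma KG_lip {τ : E → ℝ} (hτ : τ ∈ KG wn E) (x x' : E) : |τ x - τ x'| ≤ ‖x - x'‖ :=
  UT_lip (KG_sub_UT hτ) x x'

lemma KG_comp {τ : E → ℝ} (hτ : τ ∈ KG wn E) (T : E ≃ₗᵢ[ℝ] E) : (fun v => τ (T v)) ∈ KG wn E := by
  refine KG_sub (S := {τ : E → ℝ | (fun v => τ (T v)) ∈ KG wn E}) ?_ ?_ hτ
  · refine isClosed_closure.preimage (f := fun (τ : E → ℝ) (v : E) => τ (T v)) ?_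
    fun_prop
  · rintro τ ⟨y, hy, hw, h, hd⟩
    refine subset_closure ⟨fun n => T.symm (y n), fun n => by rw [T.symm.norm_map, hy],
      fun hb φ => ?_, fun x => ?_, fun x => ?_⟩
    · exact hw hb (φ.comp (T.symm.toContinuousLinearEquiv : E →L[ℝ] E))
    · refine (h (T x)).congr fun n => ?_
      rw [← T.norm_map (x + T.symm (y n)), map_add, T.apply_symm_apply]
    · have := hd (T x)
      rwa [T.norm_map] at this

lemma KG_ge {τ : E → ℝ} (hτ : τ ∈ KG wn E) (v : E) : ‖v‖ ≤ τ v := by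
  refine KG_sub (S := {τ : E → ℝ | ‖v‖ ≤ τ v}) ?_ ?_ hτ
  · exact isClosed_le continuous_const (by fun_prop)
  · rintro τ ⟨y, -, -, -, hd⟩
    exact hd v

lemma KG_nonneg {τ : E → ℝ} (hτ : τ ∈ KG wn E) (v : E) : 0 ≤ τ v := UT_nonneg (KG_sub_UT hτ) v

lemma KG_le {τ : E → ℝ} (hτ : τ ∈ KG wn E) (v : E) : τ v ≤ 1 + ‖v‖ := UT_le (KG_sub_UT hτ) v

lemma KG_compact : IsCompact (KG wn E) := UT_compact.of_isClosed_subset isClosed_closure KG_sub_UT

theorem KG_seq [TopologicalSpace.SeparableSpace E] {τ : E → ℝ} (hτ : τ ∈ KG wn E) :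
    ∃ y : ℕ → E, (∀ n, ‖y n‖ = 1) ∧ ∀ x, Tendsto (fun n => ‖x + y n‖) atTop (𝓝 (τ x)) :=
  UT_seq (KG_sub_UT hτ)

/-- the type `G ‖·‖` of a sequence dominates the norm -/
lemma rad_ge {y : ℕ → E} {F : ℝ → ℝ} (h : ∀ x : E, Tendsto (fun n => ‖x + y n‖) atTop (𝓝 (F ‖x‖)))
    (x : E) : ‖x‖ ≤ F ‖x‖ := by
  have h1 := h x
  have h2 := h (-x)
  rw [norm_neg] at h2
  have h3 := (h1.add h2)
  have h4 : 2 * ‖x‖ ≤ F ‖x‖ + F ‖x‖ := by
    refine ge_of_tendsto' h3 fun n => ?_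
    have h5 := norm_sub_le (x + y n) (-x + y n)
    have h6 : x + y n - (-x + y n) = (2 : ℝ) • x := by module
    rw [h6, norm_smul] at h5
    simpa using h5
  linarith

end

end Pool.Agent.V5helper39.BG
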