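import Pool.Agent.V5helper39.BG.Walk
import Pool.Agent.V5helper39.BM.Ort

set_option autoImplicit false

/-! # Types which depend on the norm only -/

namespace Pool.Agent.V5helper39.BG

open Filter Topology Set TopologicalSpace
open Pool.Agent.V5helper39.BM

section

variable {wn : Prop} {E : Type} [NormedAddCommGroup E] [NormedSpace ℝ E]

lemma mean_lip {K : Set (E → ℝ)} (hK : K ⊆ KG wn E) {m : ℝ → LF → ℝ} (hm : IsMean K m) {e : E}
    (he : ‖e‖ = 1) (Θ : LF) {a b : ℝ} (ha : 0 ≤ a) (hb : 0 ≤ b) : |m a Θ - m b Θ| ≤ |a - b| := by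
  refine le_of_forall_pos_le_add fun η hη => ?_
  have hpos : 0 < 2 + a + b := by positivity
  obtain ⟨N, w, τ, hw, hw1, hτ, h⟩ := hm (η / (2 + a + b)) (by positivity)
  have na : ‖a • e‖ = a := by rw [norm_smul, he, mul_one, Real.norm_eq_abs, abs_of_nonneg ha]
  have nb : ‖b • e‖ = b := by rw [norm_smul, he, mul_one, Real.norm_eq_abs, abs_of_nonneg hb]
  have h1 := h (a • e) Θ
  have h2 := h (b • e) Θ
  rw [na] at h1
  rw [nb] at h2
  have h3 : |∑ i, w i * Θ.1 (τ i (a • e)) - ∑ i, w i * Θ.1 (τ i (b • e))| ≤ |a - b| := by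
    rw [← Finset.sum_sub_distrib]
    refine (Finset.abs_sum_le_sum_abs _ _).trans ?_
    refine (Finset.sum_le_sum (g := fun i => w i * |a - b|) fun i _ => ?_).trans
      (wsum_const hw1 _).le
    rw [← mul_sub, abs_mul, abs_of_nonneg (hw i)]
    refine mul_le_mul_of_nonneg_left ?_ (hw i)
    refine (Θ.2.2 _ _).trans ((KG_lip (hK (hτ i)) _ _).trans ?_)
    rw [← sub_smul, norm_smul, he, mul_one, Real.norm_eq_abs]
  have h4 : η / (2 + a + b) * (1 + a) + η / (2 + a + b) * (1 + b) = η := by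
    field_simp
    ring
  rw [abs_le] at h1 h2 h3 ⊢
  constructor <;> linarith [h1.1, h1.2, h2.1, h2.2, h3.1, h3.2]

lemma mean_ge {K : Set (E → ℝ)} (hK : K ⊆ KG wn E) {m : ℝ → LF → ℝ} (hm : IsMean K m) {e : E}
    (he : ‖e‖ = 1) {r : ℝ} (hr : 0 ≤ r) : r ≤ m r idL := by
  refine le_of_forall_pos_le_add fun η hη => ?_
  have hpos : 0 < 1 + r := by positivity
  obtain ⟨N, w, τ, hw, hw1, hτ, h⟩ := hm (η / (1 + r)) (by positivity)
  have na : ‖r • e‖ = r := by rw [norm_smul, he, mul_one, Real.norm_eq_abs, abs_of_nonneg hr]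
  have h1 := h (r • e) idL
  rw [na, div_mul_cancel₀ _ hpos.ne'] at h1
  have h3 : r ≤ ∑ i, w i * idL.1 (τ i (r • e)) := by
    refine (wsum_const hw1 r).symm.le.trans (wsum_le hw fun i => ?_)
    have := KG_ge (hK (hτ i)) (r • e)
    rwa [na] at this
  linarith [(abs_le.1 h1).1]

lemma exists_grow {K : Set (E → ℝ)} (hK : K ⊆ KG wn E) {m : ℝ → LF → ℝ} (hm : IsMean K m) {e : E}
    (he : ‖e‖ = 1) (hgr : ∀ r, 0 ≤ r → r < m r idL) {s : ℝ} (hs : 0 < s) :
    ∃ κ : ℝ, 0 < κ ∧ κ < 2 ∧ ∀ r, 0 ≤ r → r ≤ 2 → r + κ ≤ s * m (r / s) idL := by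
  have hc : ContinuousOn (fun r => m r idL - r) (Icc 0 (2 / s)) := by
    refine ContinuousOn.sub ?_ continuousOn_id
    refine LipschitzOnWith.continuousOn (K := 1) (LipschitzOnWith.of_dist_le_mul
      fun a ha b hb => ?_)
    rw [Real.dist_eq, Real.dist_eq, NNReal.coe_one, one_mul]
    exact mean_lip hK hm he idL ha.1 hb.1
  obtain ⟨r₀, hr₀, hmin⟩ := (isCompact_Icc (a := (0 : ℝ)) (b := 2 / s)).exists_isMinOn
    ⟨0, le_rfl, by positivity⟩ hc
  have h0 : 0 < m r₀ idL - r₀ := by linarith [hgr r₀ hr₀.1]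
  refine ⟨min (s * (m r₀ idL - r₀)) 1, by positivity,
    (min_le_right _ _).trans_lt (by norm_num), fun r hr hr2 => ?_⟩
  have h1 : r / s ∈ Icc (0 : ℝ) (2 / s) := ⟨by positivity, by gcongr⟩
  have h2 : m r₀ idL - r₀ ≤ m (r / s) idL - r / s := hmin h1
  have h3 := mul_le_mul_of_nonneg_left h2 hs.le
  have h4 : s * (m (r / s) idL - r / s) = s * m (r / s) idL - r := by field_simp
  have h5 := min_le_left (s * (m r₀ idL - r₀)) 1
  linarith

/-- weak convergence to zero can be tested on a separating sequence -/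
lemma wn_of_sep (hW : Pool.Agent.N314.OP.WSC E) {g : ℕ → StrongDual ℝ E}
    (hg : ∀ a : E, (∀ k, g k a = 0) → a = 0) {R : ℕ → E} {C : ℝ} (hC : ∀ n, ‖R n‖ ≤ C)
    (h : ∀ k, Tendsto (fun n => g k (R n)) atTop (𝓝 0)) (φ : StrongDual ℝ E) :
    Tendsto (fun n => φ (R n)) atTop (𝓝 0) := by
  refine tendsto_of_subseq_tendsto fun ns hns => ?_
  obtain ⟨a, ψ, hψ, ha⟩ := hW (fun k => R (ns k)) C (fun k => hC _)
  have h0 : a = 0 := by
    refine hg a fun k => ?_
    exact tendsto_nhds_unique (ha (g k)) ((h k).comp (hns.comp hψ.tendsto_atTop))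
  refine ⟨ψ, ?_⟩
  have := ha φ
  rwa [h0, map_zero] at this

theorem exists_inv [SeparableSpace E] (hW : wn → Pool.Agent.N314.OP.WSC E) {m : ℝ → LF → ℝ}
    (hm : IsMean (KG wn E) m) {e : E} (he : ‖e‖ = 1) (hgr : ∀ r, 0 ≤ r → r < m r idL) :
    ∃ (y : ℕ → E) (F : ℝ → ℝ), (∀ n, ‖y n‖ = 1) ∧
      (wn → ∀ φ : StrongDual ℝ E, Tendsto (fun n => φ (y n)) atTop (𝓝 0)) ∧
      ∀ x, Tendsto (fun n => ‖x + y n‖) atTop (𝓝 (F ‖x‖)) := by
  classical
  obtain ⟨g, hg⟩ := Pool.Agent.N314.OP.sep_of_separable (E := E)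
  obtain ⟨D, hD⟩ := exists_dense_seq E
  have hex : ∀ j : ℕ, ∃ (R : E) (f : ℝ → ℝ), (∀ a b, |f a - f b| ≤ |a - b|) ∧
      |f 0 - 1| ≤ 1 / ((j : ℝ) + 3) ∧ |‖R‖ - f 0| ≤ 1 / ((j : ℝ) + 3) ∧
      (∀ i ≤ j, |‖D i + R‖ - f ‖D i‖| ≤ 1 / ((j : ℝ) + 3)) ∧
      (wn → ∀ i ≤ j, |g i R| ≤ 1 / ((j : ℝ) + 3)) := by
    intro j
    set t : ℝ := 1 / ((j : ℝ) + 3) with ht
    have ht0 : 0 < t := by positivity
    have ht1 : t ≤ 1 := by
      rw [ht, div_le_one (by positivity)]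
      have : (0 : ℝ) ≤ j := Nat.cast_nonneg j
      linarith
    set s : ℝ := t ^ 2 / (4 * ((j : ℝ) + 2)) with hs
    have hs0 : 0 < s := by positivity
    have hs1 : s ≤ t := by
      rw [hs, div_le_iff₀ (by positivity)]
      have : (0 : ℝ) ≤ j := Nat.cast_nonneg j
      nlinarith
    obtain ⟨u, hu⟩ := exists_walk Subset.rfl hm he hs0
    obtain ⟨κ, hκ, hκ2, hκg⟩ := exists_grow Subset.rfl hm he hgr hs0
    obtain ⟨n, hn1, hn2⟩ := hu.exists_time Subset.rfl hs0 he hκ hκ2 hκg (fun r hr => by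
      have h1 := mean_ge Subset.rfl hm he (r := r / s) (by positivity)
      have h2 := mul_le_mul_of_nonneg_left h1 hs0.le
      rwa [mul_div_cancel₀ _ hs0.ne'] at h2)
    set V : Finset E := insert 0 ((Finset.range (j + 1)).image D) with hV
    have hcard : (V.card : ℝ) ≤ (j : ℝ) + 2 := by
      have h1 : V.card ≤ (j + 1) + 1 := by
        refine (Finset.card_insert_le _ _).trans ?_
        have := Finset.card_image_le (s := Finset.range (j + 1)) (f := D)
        rw [Finset.card_range] at this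
        omega
      calc (V.card : ℝ) ≤ ((j + 1 + 1 : ℕ) : ℝ) := by exact_mod_cast h1
        _ = (j : ℝ) + 2 := by push_cast; ring
    obtain ⟨R, hR1, hR2⟩ := walk_conc Subset.rfl hs0 hu n (by linarith) V
      ((Finset.range (j + 1)).image g) (ε := t ^ 2 / 2) (by positivity)
    have hR3 : ∀ v ∈ V, |‖v + R‖ - u n ‖v‖| ≤ t := by
      intro v hv
      have h1 := hR1 v hv
      have h2 : 2 * s * (V.card : ℝ) ≤ t ^ 2 / 2 := by
        have h3 : 2 * s * (V.card : ℝ) ≤ 2 * s * ((j : ℝ) + 2) :=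
          mul_le_mul_of_nonneg_left hcard (by positivity)
        have h4 : 2 * s * ((j : ℝ) + 2) = t ^ 2 / 2 := by
          rw [hs]
          field_simp
          ring
        linarith
      refine abs_le_of_sq_le_sq' ?_ ht0.le |> abs_le.2
      linarith
    refine ⟨R, u n, hu.lip n, ?_, ?_, fun i hi => ?_, fun hwn i hi => ?_⟩
    · rw [abs_le]; constructor <;> linarith
    · have := hR3 0 (Finset.mem_insert_self _ _)
      rwa [zero_add, norm_zero] at this
    · exact hR3 _ (Finset.mem_insert_of_mem (Finset.mem_image_of_mem D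
        (Finset.mem_range.2 (by omega))))
    · refine (hR2 hwn _ (Finset.mem_image_of_mem g (Finset.mem_range.2 (by omega)))).trans ?_
      nlinarith
  choose R f hf1 hf2 hf3 hf4 hf5 using hex
  have ht : Tendsto (fun j : ℕ => 1 / ((j : ℝ) + 3)) atTop (𝓝 0) := by
    have h1 : Tendsto (fun j : ℕ => (j : ℝ) + 3) atTop atTop :=
      tendsto_atTop_add_const_right _ _ tendsto_natCast_atTop_atTop
    simpa using h1.inv_tendsto_atTop.congr fun j => by simp
  have htle : ∀ j : ℕ, 1 / ((j : ℝ) + 3) ≤ 1 / 3 := by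
    intro j
    apply one_div_le_one_div_of_le (by norm_num)
    have : (0 : ℝ) ≤ j := Nat.cast_nonneg j
    linarith
  have hRn : ∀ j, |‖R j‖ - 1| ≤ 2 * (1 / ((j : ℝ) + 3)) := by
    intro j
    have h1 := hf2 j
    have h2 := hf3 j
    rw [abs_le] at h1 h2 ⊢
    constructor <;> linarith [h1.1, h1.2, h2.1, h2.2]
  have hRpos : ∀ j, 1 / 3 ≤ ‖R j‖ := by
    intro j
    have h1 := (abs_le.1 (hRn j)).1
    have := htle j
    linarith
  have hRle : ∀ j, ‖R j‖ ≤ 2 := by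
    intro j
    have h1 := (abs_le.1 (hRn j)).2
    have := htle j
    linarith
  have hR1 : Tendsto (fun j => |‖R j‖ - 1|) atTop (𝓝 0) := by
    have := ht.const_mul 2
    rw [mul_zero] at this
    exact squeeze_zero (fun _ => abs_nonneg _) hRn this
  have hgw : wn → ∀ k, Tendsto (fun j => g k (R j)) atTop (𝓝 0) := by
    intro hwn k
    refine squeeze_zero_norm' ?_ ht
    filter_upwards [eventually_ge_atTop k] with j hj
    exact hf5 j hwn k hj
  have hRw : wn → ∀ φ : StrongDual ℝ E, Tendsto (fun n => φ (R n)) atTop (𝓝 0) :=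
    fun hwn => wn_of_sep (hW hwn) hg hRle (hgw hwn)
  set y : ℕ → E := fun j => ‖R j‖⁻¹ • R j with hy
  have hy1 : ∀ j, ‖y j‖ = 1 := by
    intro j
    have := hRpos j
    rw [hy]
    simp only
    rw [norm_smul, norm_inv, norm_norm, inv_mul_cancel₀ (by linarith)]
  have hyR : ∀ j, ‖y j - R j‖ = |‖R j‖ - 1| := by
    intro j
    have h1 := hRpos j
    have h2 : y j - R j = (‖R j‖⁻¹ - 1) • R j := by rw [hy]; module
    have h3 : (‖R j‖⁻¹ - 1) * ‖R j‖ = 1 - ‖R j‖ := by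
      rw [sub_mul, inv_mul_cancel₀ (by linarith), one_mul]
    rw [h2, norm_smul, Real.norm_eq_abs]
    nth_rewrite 2 [← abs_norm (R j)]
    rw [← abs_mul, h3, abs_sub_comm]
  have hyw : wn → ∀ φ : StrongDual ℝ E, Tendsto (fun n => φ (y n)) atTop (𝓝 0) := by
    intro hwn φ
    have h1 : Tendsto (fun n => 3 * |φ (R n)|) atTop (𝓝 0) := by
      have := ((hRw hwn φ).abs).const_mul 3
      rwa [abs_zero, mul_zero] at this
    refine squeeze_zero_norm (fun n => ?_) h1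
    rw [hy, Real.norm_eq_abs]
    simp only
    rw [map_smul, smul_eq_mul, abs_mul, abs_inv, abs_norm]
    have h2 := hRpos n
    have h3 : ‖R n‖⁻¹ ≤ 3 := by
      rw [inv_le_comm₀ (by linarith) (by norm_num)]
      linarith
    gcongr
  obtain ⟨ψ, τ, hψ, hτ⟩ := exists_typ_sub hy1
  have hψR : Tendsto (fun n => |‖R (ψ n)‖ - 1|) atTop (𝓝 0) := hR1.comp hψ.tendsto_atTop
  have hτR : ∀ x, Tendsto (fun n => ‖x + R (ψ n)‖) atTop (𝓝 (τ x)) := by
    intro x
    have h1 : Tendsto (fun n => ‖x + R (ψ n)‖ - ‖x + y (ψ n)‖) atTop (𝓝 0) := by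
      refine squeeze_zero_norm (fun n => ?_) hψR
      rw [Real.norm_eq_abs]
      refine (abs_norm_sub_norm_le _ _).trans ?_
      rw [add_sub_add_left_eq_sub, norm_sub_rev, hyR]
    have := h1.add (hτ x)
    simpa using this
  have hτlip : ∀ x x' : E, |τ x - τ x'| ≤ ‖x - x'‖ := by
    intro x x'
    refine le_of_tendsto' (((hτ x).sub (hτ x')).abs) fun n => ?_
    have h1 := abs_norm_sub_norm_le (x + y (ψ n)) (x' + y (ψ n))
    rwa [add_sub_add_right_eq_sub] at h1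
  have hDD : ∀ i i' : ℕ, |τ (D i) - τ (D i')| ≤ |‖D i‖ - ‖D i'‖| := by
    intro i i'
    have h1 : Tendsto (fun n => |‖D i‖ - ‖D i'‖| + 2 * (1 / ((ψ n : ℝ) + 3))) atTop
        (𝓝 (|‖D i‖ - ‖D i'‖| + 2 * 0)) :=
      ((ht.comp hψ.tendsto_atTop).const_mul 2).const_add _
    rw [mul_zero, add_zero] at h1
    refine le_of_tendsto_of_tendsto (((hτR (D i)).sub (hτR (D i'))).abs) h1 ?_
    filter_upwards [eventually_ge_atTop (max i i')] with n hn
    have hn1 : i ≤ ψ n := (le_max_left _ _).trans (hn.trans (hψ.id_le n))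
    have hn2 : i' ≤ ψ n := (le_max_right _ _).trans (hn.trans (hψ.id_le n))
    have h2 := hf4 (ψ n) i hn1
    have h3 := hf4 (ψ n) i' hn2
    have h4 := hf1 (ψ n) ‖D i‖ ‖D i'‖
    have h5 := abs_sub_abs_le_abs_sub (f (ψ n) ‖D i‖) (f (ψ n) ‖D i'‖)
    rw [abs_le] at h2 h3 h4 ⊢
    constructor <;> linarith [h2.1, h2.2, h3.1, h3.2, h4.1, h4.2]
  have hrad : ∀ x x' : E, ‖x‖ = ‖x'‖ → τ x = τ x' := by
    intro x x' hxx
    refine eq_of_small fun δ hδ => ?_
    obtain ⟨_, ⟨i, rfl⟩, hi⟩ := Metric.mem_closure_iff.1 (hD x) (δ / 4) (by positivity)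
    obtain ⟨_, ⟨i', rfl⟩, hi'⟩ := Metric.mem_closure_iff.1 (hD x') (δ / 4) (by positivity)
    rw [dist_eq_norm] at hi hi'
    have h1 := hτlip x (D i)
    have h2 := hτlip x' (D i')
    have h3 := hDD i i'
    have h4 := abs_norm_sub_norm_le x (D i)
    have h5 := abs_norm_sub_norm_le x' (D i')
    have h6 : |‖D i‖ - ‖D i'‖| ≤ δ / 2 := by
      rw [abs_le] at h4 h5 ⊢
      constructor <;> linarith [h4.1, h4.2, h5.1, h5.2]
    have h7 := h3.trans h6
    rw [abs_le] at h1 h2 h7 ⊢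
    constructor <;> linarith [h1.1, h1.2, h2.1, h2.2, h7.1, h7.2]
  refine ⟨fun n => y (ψ n), fun r => τ (r • e), fun n => hy1 _,
    fun hwn φ => (hyw hwn φ).comp hψ.tendsto_atTop, fun x => ?_⟩
  have h1 : τ x = τ (‖x‖ • e) := hrad _ _ (by
    rw [norm_smul, he, mul_one, norm_norm])
  simp only
  rw [← h1]
  exact hτ x

end

end Pool.Agent.V5helper39.BG
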