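import Pool.Agent.V5helper39.BG.Noc
import Pool.Agent.V5helper39.BG.Inv
import Pool.Agent.V5helper39.BM.Boh

set_option autoImplicit false

/-! # Growth of the walks, and the function of the invariant type -/

namespace Pool.Agent.V5helper39.BG

open Filter Topology Set TopologicalSpace
open Pool.Agent.V5helper39.BM

section

variable {wn : Prop} {E : Type} [NormedAddCommGroup E] [NormedSpace ℝ E]

/-- the means of the types are strictly larger than the norm -/
theorem strict_grow [SeparableSpace E] (hst : Stable E) {m : ℝ → LF → ℝ}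
    (hm : IsMean (KG wn E) m) {e : E} (he : ‖e‖ = 1) (r : ℝ) (hr : 0 ≤ r) : r < m r idL := by
  rcases hr.eq_or_lt with h0 | h0
  · subst h0
    have h1 : m 0 idL = 1 := by
      refine eq_of_small fun δ hδ => ?_
      obtain ⟨N, w, τ, hw, hw1, hτ, h⟩ := hm δ hδ
      have h2 := h 0 idL
      rw [norm_zero, add_zero, mul_one] at h2
      have h3 : ∑ i, w i * idL.1 (τ i 0) = 1 := by
        rw [← wsum_const hw1 1]
        refine Finset.sum_congr rfl fun i _ => ?_
        show w i * τ i 0 = w i * 1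
        rw [KG_zero (hτ i)]
      rwa [h3] at h2
    rw [h1]
    exact one_pos
  by_contra hcon
  push Not at hcon
  -- types close to the norm on finitely many vectors of the sphere of radius `r`
  have hfin : ∀ (V : Finset E) (ε : ℝ), (∀ v ∈ V, ‖v‖ = r) → 0 < ε →
      ∃ σ ∈ KG wn E, ∀ v ∈ V, σ v ≤ r + ε := by
    intro V ε hV hε
    have hpos : 0 < ((V.card : ℝ) + 1) * (1 + r) := by positivity
    obtain ⟨N, w, τ, hw, hw1, hτ, h⟩ := hm (ε / (((V.card : ℝ) + 1) * (1 + r))) (by positivity)
    have h1 : ∑ i, w i * (∑ v ∈ V, (τ i v - r)) ≤ ε := by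
      have h2 : ∑ i, w i * (∑ v ∈ V, (τ i v - r)) = ∑ v ∈ V, ∑ i, w i * (τ i v - r) := by
        simp only [Finset.mul_sum]
        rw [Finset.sum_comm]
      rw [h2]
      have h3 : ∀ v ∈ V, ∑ i, w i * (τ i v - r) ≤ ε / ((V.card : ℝ) + 1) := by
        intro v hv
        have h4 := (abs_le.1 (h v idL)).1
        rw [hV v hv] at h4
        have h5 : ∑ i, w i * (τ i v - r) = ∑ i, w i * idL.1 (τ i v) - r := by
          simp only [mul_sub, Finset.sum_sub_distrib]
          rw [wsum_const hw1]
          rfl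
        have h6 : ε / (((V.card : ℝ) + 1) * (1 + r)) * (1 + r) = ε / ((V.card : ℝ) + 1) := by
          have : (0 : ℝ) < 1 + r := by positivity
          field_simp
        rw [h5]
        linarith
      refine (Finset.sum_le_sum h3).trans ?_
      rw [Finset.sum_const, nsmul_eq_mul]
      rw [mul_div_assoc', div_le_iff₀ (by positivity)]
      nlinarith
    obtain ⟨i, hi⟩ := exists_le_avg (F := fun i => ∑ v ∈ V, (τ i v - r)) hw hw1
    refine ⟨τ i, hτ i, fun v hv => ?_⟩
    have h7 : τ i v - r ≤ ∑ v ∈ V, (τ i v - r) :=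
      Finset.single_le_sum (f := fun v => τ i v - r) (fun v hv => by
        have := KG_ge (hτ i) v
        rw [hV v hv] at this
        linarith) hv
    linarith
  -- compactness
  obtain ⟨σ, hσ, hσ'⟩ := KG_compact.inter_iInter_nonempty (s := KG wn E)
    (fun z : {v : E // ‖v‖ = r} × ℕ => {σ : E → ℝ | σ z.1.1 ≤ r + 1 / ((z.2 : ℝ) + 1)})
    (fun z => isClosed_le (by fun_prop) continuous_const) (fun u => by
      classical
      obtain ⟨σ, hσ, h⟩ := hfin (u.image fun z => z.1.1) (1 / (((u.sup fun z => z.2 : ℕ) : ℝ) + 1))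
        (fun v hv => by
          obtain ⟨z, -, rfl⟩ := Finset.mem_image.1 hv
          exact z.1.2) (by positivity)
      refine ⟨σ, hσ, ?_⟩
      simp only [Set.mem_iInter]
      intro z hz
      refine (h z.1.1 (Finset.mem_image_of_mem _ hz)).trans ?_
      have h1 : z.2 ≤ u.sup fun z => z.2 := Finset.le_sup (f := fun z => z.2) hz
      have h2 : (z.2 : ℝ) ≤ ((u.sup fun z => z.2 : ℕ) : ℝ) := by exact_mod_cast h1
      gcongr)
  simp only [Set.mem_iInter] at hσ'
  obtain ⟨v, hv, hv'⟩ := noc hst hσ h0 he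
  refine hv' (le_antisymm ?_ ?_)
  · refine le_of_forall_pos_le_add fun η hη => ?_
    obtain ⟨k, hk⟩ := exists_nat_one_div_lt hη
    have := hσ' (⟨v, hv⟩, k)
    have h1 : σ v ≤ r + 1 / ((k : ℝ) + 1) := this
    linarith
  · have := KG_ge hσ v
    rwa [hv] at this

/-- the function of a type which depends on the norm only -/
theorem bh_of_rad [SeparableSpace E] (hst : Stable E) {e : E} (he : ‖e‖ = 1) {y : ℕ → E}
    {F : ℝ → ℝ} (hy : ∀ n, ‖y n‖ = 1)
    (hF : ∀ x : E, Tendsto (fun n => ‖x + y n‖) atTop (𝓝 (F ‖x‖))) : BH F := by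
  have hK : (fun x : E => F ‖x‖) ∈ KG False E :=
    WG_sub_KG ⟨y, hy, fun h => h.elim, hF, rad_ge hF⟩
  have ne : ∀ a : ℝ, 0 ≤ a → ‖a • e‖ = a := fun a ha => by
    rw [norm_smul, he, mul_one, Real.norm_eq_abs, abs_of_nonneg ha]
  have hlip : ∀ a b, 0 ≤ a → 0 ≤ b → |F a - F b| ≤ |a - b| := by
    intro a b ha hb
    have h1 := KG_lip hK (a • e) (b • e)
    simp only [ne a ha, ne b hb] at h1
    rwa [← sub_smul, norm_smul, he, mul_one, Real.norm_eq_abs] at h1
  have hge : ∀ r, 0 ≤ r → r ≤ F r := by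
    intro r hr
    have h1 := rad_ge hF (r • e)
    rwa [ne r hr] at h1
  have hcont : ∀ {u : ℕ → ℝ} {a : ℝ}, (∀ n, 0 ≤ u n) → 0 ≤ a → Tendsto u atTop (𝓝 a) →
      Tendsto (fun n => F (u n)) atTop (𝓝 (F a)) := by
    intro u a hu ha h
    rw [tendsto_iff_dist_tendsto_zero] at h ⊢
    refine squeeze_zero (fun _ => dist_nonneg) (fun n => ?_) h
    rw [Real.dist_eq, Real.dist_eq]
    exact hlip _ _ (hu n) ha
  refine ⟨hlip, ?_, ?_, hge, ?_, ?_⟩
  · have := KG_zero hK
    simpa using this
  · intro a b ha hab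
    rcases (ha.trans hab).eq_or_lt with h0 | h0
    · have : a = b := by linarith
      rw [this]
    set l : ℝ := (1 + a / b) / 2 with hl
    have hab1 : a / b ≤ 1 := (div_le_one h0).2 hab
    have hab0 : 0 ≤ a / b := by positivity
    have hl0 : 0 ≤ l := by positivity
    have hl1 : 0 ≤ 1 - l := by rw [hl]; linarith
    have h1 : Tendsto (fun n => l * ‖b • e + y n‖ + (1 - l) * ‖-(b • e) + y n‖) atTop
        (𝓝 (l * F ‖b • e‖ + (1 - l) * F ‖-(b • e)‖)) :=
      ((hF (b • e)).const_mul l).add ((hF (-(b • e))).const_mul (1 - l))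
    rw [norm_neg, ne b h0.le] at h1
    have h2 := hF (a • e)
    rw [ne a ha] at h2
    have h3 := le_of_tendsto_of_tendsto' h2 h1 fun n => by
      have h4 : a • e + y n = l • (b • e + y n) + (1 - l) • (-(b • e) + y n) := by
        have h5 : l • (b • e + y n) + (1 - l) • (-(b • e) + y n) = ((2 * l - 1) * b) • e + y n := by
          module
        rw [h5]
        have h6 : (2 * l - 1) * b = a := by
          rw [hl]
          field_simp
          ring
        rw [h6]
      calc ‖a • e + y n‖ = ‖l • (b • e + y n) + (1 - l) • (-(b • e) + y n)‖ := by rw [← h4]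
        _ ≤ _ := by
          refine (norm_add_le _ _).trans (le_of_eq ?_)
          rw [norm_smul, norm_smul, Real.norm_eq_abs, Real.norm_eq_abs, abs_of_nonneg hl0,
            abs_of_nonneg hl1]
    linarith
  · intro r t hr ht
    obtain ⟨L, h1, h2⟩ := t_COM E hst (fun x => F ‖x‖) (fun x => F ‖x‖) y y hy hy hF hF (r • e) t ht
    have h3 : Tendsto (fun n => t * F ‖t⁻¹ • (r • e + y n)‖) atTop (𝓝 (t * F (F r / t))) := by
      refine Tendsto.const_mul t (hcont (fun n => norm_nonneg _)
        (div_nonneg (hr.trans (hge r hr)) ht.le) ?_)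
      have h4 := (hF (r • e)).const_mul t⁻¹
      rw [ne r hr] at h4
      have h5 : t⁻¹ * F r = F r / t := by field_simp
      rw [h5] at h4
      refine h4.congr fun n => ?_
      rw [norm_smul, norm_inv, Real.norm_eq_abs, abs_of_pos ht]
    have h6 : Tendsto (fun m => F ‖r • e + t • y m‖) atTop (𝓝 (F (t * F (r / t)))) := by
      refine hcont (fun n => norm_nonneg _) (mul_nonneg ht.le
        ((div_nonneg hr ht.le).trans (hge _ (div_nonneg hr ht.le)))) ?_
      have h4 := (hF (t⁻¹ • (r • e))).const_mul t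
      have h5 : ‖t⁻¹ • (r • e)‖ = r / t := by
        rw [norm_smul, ne r hr, norm_inv, Real.norm_eq_abs, abs_of_pos ht]
        field_simp
      rw [h5] at h4
      refine h4.congr fun n => ?_
      have h7 : r • e + t • y n = t • (t⁻¹ • (r • e) + y n) := by
        rw [smul_add, smul_smul t t⁻¹, mul_inv_cancel₀ ht.ne', one_smul]
      rw [h7, norm_smul, Real.norm_eq_abs, abs_of_pos ht]
    rw [tendsto_nhds_unique h3 h1, tendsto_nhds_unique h6 h2]
  · obtain ⟨v, hv, hv'⟩ := noc hst hK one_pos he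
    simp only [hv] at hv'
    exact lt_of_le_of_ne (hge 1 zero_le_one) (Ne.symm hv')

end

end Pool.Agent.V5helper39.BG
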