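import Pool.Agent.V5helper39.BG.Bas

set_option autoImplicit false

/-! # Invariant means of Lipschitz functions of the types -/

namespace Pool.Agent.V5helper39.BG

open Filter Topology Set
open Pool.Agent.V5helper39.BM

/-- contractions of the line which vanish at `0` -/
def LF : Type := {Θ : ℝ → ℝ // Θ 0 = 0 ∧ ∀ a b, |Θ a - Θ b| ≤ |a - b|}

/-- the values of the contractions at the type -/
def qL {E : Type} (τ : E → ℝ) : E × LF → ℝ := fun z => z.2.1 (τ z.1)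

/-- the weight -/
def omL (E : Type) [NormedAddCommGroup E] (z : E × LF) : ℝ := 1 + ‖z.1‖

lemma LF_cont (Θ : LF) : Continuous Θ.1 := by
  refine (LipschitzWith.of_dist_le_mul (K := 1) fun a b => ?_).continuous
  rw [Real.dist_eq, Real.dist_eq, NNReal.coe_one, one_mul]
  exact Θ.2.2 a b

lemma LF_abs (Θ : LF) (a : ℝ) : |Θ.1 a| ≤ |a| := by
  have := Θ.2.2 a 0
  rwa [Θ.2.1, sub_zero, sub_zero] at this

section

variable {wn : Prop} {E : Type} [NormedAddCommGroup E] [NormedSpace ℝ E]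

lemma qL_continuous : Continuous (qL : (E → ℝ) → E × LF → ℝ) := by
  refine continuous_pi fun z => ?_
  exact (LF_cont z.2).comp (continuous_apply z.1)

lemma qL_bd {τ : E → ℝ} (hτ : τ ∈ UT E) (z : E × LF) : |qL τ z| ≤ 1 * omL E z := by
  refine (LF_abs _ _).trans ?_
  rw [abs_of_nonneg (UT_nonneg hτ _), one_mul]
  exact UT_le hτ _

/-- separability -/
theorem ksepL (hS : SST E) : WSep (omL E) (qL '' UT E) := by
  intro δ hδ
  set R : ℝ := max 1 (1 / δ) with hR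
  have hR1 : 1 ≤ R := le_max_left _ _
  have hR2 : 1 / δ ≤ R := le_max_right _ _
  have hR0 : 0 < R := by linarith
  obtain ⟨c, hc⟩ := hS (δ / R) (by positivity)
  refine ⟨fun n z => z.2.1 (if ‖z.1‖ ≤ R then R * c n (R⁻¹ • z.1) else ‖z.1‖), ?_⟩
  rintro _ ⟨τ, hτ, rfl⟩
  obtain ⟨n, hn⟩ := hc _ (UT_scale hτ hR1)
  refine ⟨n, fun z => ?_⟩
  obtain ⟨v, Θ⟩ := z
  have hv := norm_nonneg v
  refine (Θ.2.2 _ _).trans ?_
  show |τ v - (if ‖v‖ ≤ R then R * c n (R⁻¹ • v) else ‖v‖)| ≤ δ * (1 + ‖v‖)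
  by_cases hvR : ‖v‖ ≤ R
  · rw [if_pos hvR]
    have h2 := hn (R⁻¹ • v) (by
      rw [norm_smul, norm_inv, Real.norm_eq_abs, abs_of_pos hR0, inv_mul_le_iff₀ hR0, mul_one]
      exact hvR)
    simp only [smul_smul, mul_inv_cancel₀ hR0.ne', one_smul] at h2
    have h3 : τ v - R * c n (R⁻¹ • v) = R * (R⁻¹ * τ v - c n (R⁻¹ • v)) := by
      field_simp
    rw [h3, abs_mul, abs_of_pos hR0]
    calc R * |R⁻¹ * τ v - c n (R⁻¹ • v)| ≤ R * (δ / R) :=
          mul_le_mul_of_nonneg_left h2 hR0.le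
      _ = δ := by field_simp
      _ ≤ δ * (1 + ‖v‖) := by nlinarith
  · rw [if_neg hvR]
    push Not at hvR
    refine (UT_range hτ v).trans ?_
    have h4 : 1 / δ ≤ 1 + ‖v‖ := by linarith
    rw [div_le_iff₀ hδ] at h4
    linarith

/-- action on pairs -/
@[reducible] def actL (E : Type) [NormedAddCommGroup E] [NormedSpace ℝ E] :
    MulAction (E ≃ₗᵢ[ℝ] E) (E × LF) where
  smul g p := (g p.1, p.2)
  one_smul _ := rfl
  mul_smul _ _ _ := rfl

/-- `m` is an invariant mean over the set `K` of types -/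
def IsMean (K : Set (E → ℝ)) (m : ℝ → LF → ℝ) : Prop :=
  ∀ δ : ℝ, 0 < δ → ∃ (N : ℕ) (w : Fin N → ℝ) (τ : Fin N → E → ℝ), (∀ i, 0 ≤ w i) ∧
    ∑ i, w i = 1 ∧ (∀ i, τ i ∈ K) ∧
    ∀ (v : E) (Θ : LF), |m ‖v‖ Θ - ∑ i, w i * Θ.1 (τ i v)| ≤ δ * (1 + ‖v‖)

theorem exists_mean (hAT : Pool.Agent.N314.OP.AT E) (K₀ : Set (E → ℝ)) (hK₀ : K₀ ⊆ UT E)
    (hcl : IsClosed K₀) (hW : K₀.Nonempty) (he : ∃ e : E, ‖e‖ = 1)
    (hKi : ∀ τ ∈ K₀, ∀ T : E ≃ₗᵢ[ℝ] E, (fun v => τ (T v)) ∈ K₀)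
    (hsep0 : WSep (omL E) (qL '' UT E)) : ∃ m, IsMean K₀ m := by
  letI := actL E
  have hsep : WSep (omL E) (qL '' K₀) := hsep0.mono (image_mono hK₀)
  set Q : Set (E × LF → ℝ) := qL '' K₀ with hQ
  have hQc : IsCompact Q := (UT_compact.of_isClosed_subset hcl hK₀).image qL_continuous
  have hQb : ∀ q ∈ Q, ∀ z, |q z| ≤ 1 * omL E z := by
    rintro _ ⟨τ, hτ, rfl⟩ z
    exact qL_bd (hK₀ hτ) z
  have hω : ∀ z : E × LF, 0 ≤ omL E z := fun z => by unfold omL; positivity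
  set K : Set (E × LF → ℝ) := closure (convexHull ℝ Q) with hK
  have hKw : K ⊆ wBall (omL E) (fun _ => 0) 1 := by
    refine closure_minimal (convexHull_min ?_ (wBall_convex _ _ _)) (wBall_closed _ _ _)
    intro q hq z
    rw [sub_zero]
    exact hQb q hq z
  have hKb : ∀ q ∈ K, ∀ z, |q z| ≤ 1 * omL E z := by
    intro q hq z
    have := hKw hq z
    rwa [sub_zero] at this
  have hKc : IsCompact K := V5helper21.BM.compact_of_bd (omL E) K isClosed_closure 1 hKb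
  have hKv : Convex ℝ K := (convex_convexHull ℝ Q).closure
  have hKQ : Q ⊆ K := (subset_convexHull ℝ Q).trans subset_closure
  have hne : K.Nonempty := by
    obtain ⟨τ, hτ⟩ := hW
    exact ⟨qL τ, hKQ ⟨τ, hτ, rfl⟩⟩
  have hKs : WSep (omL E) K := haydon (omL E) hω Q hQc 1 hQb hsep
  have hinv : ∀ g : E ≃ₗᵢ[ℝ] E, ∀ q ∈ K, tr g q ∈ K := by
    intro g q hq
    have hcl : IsClosed {q : E × LF → ℝ | tr g q ∈ K} :=
      isClosed_closure.preimage (tr_continuous g)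
    have hcv : Convex ℝ {q : E × LF → ℝ | tr g q ∈ K} := by
      intro q hq q' hq' a b ha hb hab
      have h1 : tr g (a • q + b • q') = a • tr g q + b • tr g q' := rfl
      show tr g (a • q + b • q') ∈ K
      rw [h1]
      exact hKv hq hq' ha hb hab
    refine closure_minimal (convexHull_min ?_ hcv) hcl hq
    rintro _ ⟨τ, hτ, rfl⟩
    refine hKQ ⟨fun v => τ (g v), hKi τ hτ g, ?_⟩
    funext z
    rfl
  obtain ⟨q, hq, hfix⟩ := fixed_point (G := E ≃ₗᵢ[ℝ] E) (omL E) hω (fun g z => by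
    show 1 + ‖g z.1‖ = 1 + ‖z.1‖
    rw [g.norm_map]) K hKc hKv hne hinv 1 hKb hKs
  obtain ⟨e, he⟩ := he
  -- continuity in the vector
  have hlip : ∀ (v v' : E) (Θ : LF), |q (v, Θ) - q (v', Θ)| ≤ ‖v - v'‖ := by
    intro v v' Θ
    have hc : IsClosed {q : E × LF → ℝ | |q (v, Θ) - q (v', Θ)| ≤ ‖v - v'‖} :=
      isClosed_le (by fun_prop) continuous_const
    have hcv : Convex ℝ {q : E × LF → ℝ | |q (v, Θ) - q (v', Θ)| ≤ ‖v - v'‖} := by
      intro q hq q' hq' a b ha hb hab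
      have hq1 : |q (v, Θ) - q (v', Θ)| ≤ ‖v - v'‖ := hq
      have hq2 : |q' (v, Θ) - q' (v', Θ)| ≤ ‖v - v'‖ := hq'
      have h1 : (a • q + b • q') (v, Θ) - (a • q + b • q') (v', Θ) =
          a * (q (v, Θ) - q (v', Θ)) + b * (q' (v, Θ) - q' (v', Θ)) := by
        simp only [Pi.add_apply, Pi.smul_apply, smul_eq_mul]
        ring
      show |(a • q + b • q') (v, Θ) - (a • q + b • q') (v', Θ)| ≤ ‖v - v'‖
      rw [h1]
      refine (abs_add_le _ _).trans ?_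
      rw [abs_mul, abs_mul, abs_of_nonneg ha, abs_of_nonneg hb]
      have h2 := mul_le_mul_of_nonneg_left hq1 ha
      have h3 := mul_le_mul_of_nonneg_left hq2 hb
      have h4 : a * ‖v - v'‖ + b * ‖v - v'‖ = ‖v - v'‖ := by rw [← add_mul, hab, one_mul]
      linarith
    refine closure_minimal (convexHull_min ?_ hcv) hc hq
    rintro _ ⟨τ, hτ, rfl⟩
    exact (Θ.2.2 _ _).trans (UT_lip (hK₀ hτ) v v')
  have hrad : ∀ (v : E) (Θ : LF), q (v, Θ) = q (‖v‖ • e, Θ) := by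
    intro v Θ
    by_cases hv : v = 0
    · rw [hv, norm_zero, zero_smul]
    · have hn : 0 < ‖v‖ := norm_pos_iff.2 hv
      refine eq_of_small fun δ hδ => ?_
      obtain ⟨T, hT'⟩ := hAT e (‖v‖⁻¹ • v) he
        (by rw [norm_smul, norm_inv, norm_norm, inv_mul_cancel₀ hn.ne']) (δ / ‖v‖) (by positivity)
      have h2 := congrFun (hfix T) (‖v‖ • e, Θ)
      have h3 : tr T q (‖v‖ • e, Θ) = q (T (‖v‖ • e), Θ) := rfl
      rw [h3] at h2
      rw [← h2]
      refine (hlip _ _ _).trans ?_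
      have h4 : v - T (‖v‖ • e) = ‖v‖ • (‖v‖⁻¹ • v - T e) := by
        rw [smul_sub, smul_smul, mul_inv_cancel₀ hn.ne', one_smul, map_smul]
      rw [h4, norm_smul, norm_norm, norm_sub_rev]
      calc ‖v‖ * ‖T e - ‖v‖⁻¹ • v‖ ≤ ‖v‖ * (δ / ‖v‖) :=
            mul_le_mul_of_nonneg_left hT'.le hn.le
        _ = δ := by field_simp
  refine ⟨fun r Θ => q (r • e, Θ), fun δ hδ => ?_⟩
  obtain ⟨N, w, p, hw, hw1, hp, hap⟩ := t_APX (E × LF) (omL E) hω Q hQc 1 hQb hsep q hq δ hδ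
  choose τ hτ hτp using hp
  refine ⟨N, w, τ, hw, hw1, hτ, fun v Θ => ?_⟩
  have h1 := hap (v, Θ)
  rw [hrad] at h1
  refine (le_of_eq ?_).trans h1
  congr 2
  refine Finset.sum_congr rfl fun i _ => ?_
  rw [← hτp i]
  rfl

end

end Pool.Agent.V5helper39.BG
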