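import Mathlib

set_option autoImplicit false

/-! # Second order expansions -/

namespace Pool.Agent.V5helper39.BG

open Filter Topology Set

section

variable {E : Type} [NormedAddCommGroup E] [NormedSpace ℝ E]

/-- the even part of the square of the norm around a point is close to a quadratic form -/
lemma sec_even {T : E ≃ₗᵢ[ℝ] E} {e : E} {φ : E →L[ℝ] ℝ} {B : E →L[ℝ] E →L[ℝ] ℝ} {δ η : ℝ}
    (hB : ∀ v : E, ‖v‖ ≤ δ → |‖e + v‖ ^ 2 - 1 - φ v - B v v| ≤ η * ‖v‖ ^ 2) {v : E}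
    (hv : ‖v‖ ≤ δ) :
    |((‖v + T e‖ ^ 2 + ‖-v + T e‖ ^ 2) / 2 - 1) - B (T.symm v) (T.symm v)| ≤ η * ‖v‖ ^ 2 := by
  have h1 : ∀ u : E, ‖u + T e‖ = ‖e + T.symm u‖ := by
    intro u
    rw [← T.norm_map (e + T.symm u), map_add, T.apply_symm_apply, add_comm]
  have hu : ‖T.symm v‖ = ‖v‖ := T.symm.norm_map v
  have h2 := hB (T.symm v) (by rw [hu]; exact hv)
  have h3 := hB (-T.symm v) (by rw [norm_neg, hu]; exact hv)
  rw [h1, h1, map_neg]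
  rw [hu] at h2
  rw [norm_neg, hu] at h3
  simp only [map_neg, ContinuousLinearMap.neg_apply, neg_neg] at h3
  rw [abs_le] at h2 h3 ⊢
  constructor <;> linarith [h2.1, h2.2, h3.1, h3.2]

/-- limits -/
lemma sec_lim {F : ℝ → ℝ} {T : ℕ → E ≃ₗᵢ[ℝ] E} {e : E}
    (hT : ∀ x : E, Tendsto (fun k => ‖x + T k e‖) atTop (𝓝 (F ‖x‖))) (v : E) :
    Tendsto (fun k => (‖v + T k e‖ ^ 2 + ‖-v + T k e‖ ^ 2) / 2 - 1) atTop
      (𝓝 (F ‖v‖ ^ 2 - 1)) := by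
  have h1 := hT v
  have h2 := hT (-v)
  rw [norm_neg] at h2
  have h3 := (((h1.pow 2).add (h2.pow 2)).div_const 2).sub_const 1
  have h4 : (F ‖v‖ ^ 2 + F ‖v‖ ^ 2) / 2 - 1 = F ‖v‖ ^ 2 - 1 := by ring
  rwa [h4] at h3

/-- approximate parallelogram law for `F ‖v‖ ^ 2 - 1` -/
lemma sec_par {F : ℝ → ℝ} {T : ℕ → E ≃ₗᵢ[ℝ] E} {e : E}
    (hT : ∀ x : E, Tendsto (fun k => ‖x + T k e‖) atTop (𝓝 (F ‖x‖)))
    {φ : E →L[ℝ] ℝ} {B : E →L[ℝ] E →L[ℝ] ℝ} {δ η : ℝ}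
    (hB : ∀ v : E, ‖v‖ ≤ δ → |‖e + v‖ ^ 2 - 1 - φ v - B v v| ≤ η * ‖v‖ ^ 2) {v w : E}
    (hv : ‖v‖ ≤ δ) (hw : ‖w‖ ≤ δ) (hvw : ‖v + w‖ ≤ δ) (hvw' : ‖v - w‖ ≤ δ) :
    |(F ‖v + w‖ ^ 2 - 1) + (F ‖v - w‖ ^ 2 - 1) - 2 * (F ‖v‖ ^ 2 - 1) - 2 * (F ‖w‖ ^ 2 - 1)| ≤
      η * (‖v + w‖ ^ 2 + ‖v - w‖ ^ 2 + 2 * ‖v‖ ^ 2 + 2 * ‖w‖ ^ 2) := by
  have h1 := ((((sec_lim hT (v + w)).add (sec_lim hT (v - w))).sub
    ((sec_lim hT v).const_mul 2)).sub ((sec_lim hT w).const_mul 2)).abs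
  refine le_of_tendsto' h1 fun k => ?_
  have a1 := abs_le.1 (sec_even (T := T k) hB hv)
  have a2 := abs_le.1 (sec_even (T := T k) hB hw)
  have a3 := abs_le.1 (sec_even (T := T k) hB hvw)
  have a4 := abs_le.1 (sec_even (T := T k) hB hvw')
  have h2 : B ((T k).symm (v + w)) ((T k).symm (v + w)) +
      B ((T k).symm (v - w)) ((T k).symm (v - w)) =
      2 * B ((T k).symm v) ((T k).symm v) + 2 * B ((T k).symm w) ((T k).symm w) := by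
    simp only [map_add, map_sub, ContinuousLinearMap.add_apply, ContinuousLinearMap.sub_apply]
    ring
  rw [abs_le]
  constructor <;> linarith [a1.1, a1.2, a2.1, a2.2, a3.1, a3.2, a4.1, a4.2]

/-- a quadratic bound -/
lemma sec_bd {F : ℝ → ℝ} {T : ℕ → E ≃ₗᵢ[ℝ] E} {e : E}
    (hT : ∀ x : E, Tendsto (fun k => ‖x + T k e‖) atTop (𝓝 (F ‖x‖)))
    {φ : E →L[ℝ] ℝ} {B : E →L[ℝ] E →L[ℝ] ℝ} {δ η : ℝ}
    (hB : ∀ v : E, ‖v‖ ≤ δ → |‖e + v‖ ^ 2 - 1 - φ v - B v v| ≤ η * ‖v‖ ^ 2) {v : E}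
    (hv : ‖v‖ ≤ δ) : F ‖v‖ ^ 2 - 1 ≤ (‖B‖ + η) * ‖v‖ ^ 2 := by
  refine le_of_tendsto' (sec_lim hT v) fun k => ?_
  have a1 := (abs_le.1 (sec_even (T := T k) hB hv)).2
  have h1 : B ((T k).symm v) ((T k).symm v) ≤ ‖B‖ * ‖v‖ ^ 2 := by
    have h2 := B.le_opNorm₂ ((T k).symm v) ((T k).symm v)
    rw [(T k).symm.norm_map, Real.norm_eq_abs] at h2
    have h3 := le_abs_self (B ((T k).symm v) ((T k).symm v))
    calc _ ≤ _ := h3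
      _ ≤ _ := h2
      _ = _ := by ring
  linarith

/-- a quadratic bound gives `p ≥ 2` -/
lemma two_le_of_bd {p C δ : ℝ} (hp : 1 ≤ p) (hδ : 0 < δ)
    (h : ∀ r : ℝ, 0 ≤ r → r ≤ δ → ((1 + r ^ p) ^ (1 / p)) ^ 2 - 1 ≤ C * r ^ 2) : 2 ≤ p := by
  by_contra hcon
  push Not at hcon
  have hp0 : 0 < p := by linarith
  have h2p : 0 < 2 - p := by linarith
  -- `r ^ p ≤ C r ^ 2`
  have h1 : ∀ r : ℝ, 0 < r → r ≤ δ → 1 ≤ |C| * r ^ (2 - p) := by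
    intro r hr hrδ
    have h2 := h r hr.le hrδ
    have h3 : ((1 + r ^ p) ^ (1 / p)) ^ 2 = (1 + r ^ p) ^ (2 / p) := by
      rw [← Real.rpow_natCast, ← Real.rpow_mul (by positivity)]
      congr 1
      push_cast
      ring
    have h4 : 1 ≤ 2 / p := by
      rw [le_div_iff₀ hp0]
      linarith
    have h5 := one_add_mul_self_le_rpow_one_add (s := r ^ p)
      (by have : 0 ≤ r ^ p := by positivity
          linarith) h4
    rw [h3] at h2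
    have h6 : r ^ p ≤ 2 / p * r ^ p := le_mul_of_one_le_left (by positivity) h4
    have h7 : r ^ p ≤ |C| * r ^ 2 := by
      have h8 : C * r ^ 2 ≤ |C| * r ^ 2 := by gcongr; exact le_abs_self C
      linarith
    have h8 : r ^ (2 : ℕ) = r ^ (2 - p) * r ^ p := by
      rw [← Real.rpow_add hr]
      norm_num
    rw [h8, ← mul_assoc] at h7
    have h9 : 0 < r ^ p := by positivity
    nlinarith
  have h2 : Tendsto (fun r : ℝ => |C| * r ^ (2 - p)) (𝓝[>] 0) (𝓝 0) := by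
    have h3 : Tendsto (fun r : ℝ => r ^ (2 - p)) (𝓝[>] 0) (𝓝 0) := by
      have h4 := (Real.continuousAt_rpow_const (0 : ℝ) (2 - p) (Or.inr h2p.le)).tendsto
      rw [Real.zero_rpow h2p.ne'] at h4
      exact h4.mono_left nhdsWithin_le_nhds
    simpa using h3.const_mul |C|
  have h3 : ∀ᶠ r : ℝ in 𝓝[>] 0, 1 ≤ |C| * r ^ (2 - p) := by
    filter_upwards [Ioc_mem_nhdsGT hδ] with r hr
    exact h1 r hr.1 hr.2
  have h4 := ge_of_tendsto h2 h3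
  linarith

/-- the theorem on second order expansions -/
theorem sec_main {p : ℝ} (hp : 1 ≤ p) {F : ℝ → ℝ} (hF : ∀ r, 0 ≤ r → F r = (1 + r ^ p) ^ (1 / p))
    (hT : ∀ e : E, ‖e‖ = 1 → ∃ T : ℕ → E ≃ₗᵢ[ℝ] E,
      ∀ x : E, Tendsto (fun k => ‖x + T k e‖) atTop (𝓝 (F ‖x‖)))
    (h : ∀ η : ℝ, 0 < η → ∃ (e : E) (φ : E →L[ℝ] ℝ) (B : E →L[ℝ] E →L[ℝ] ℝ) (δ : ℝ), ‖e‖ = 1 ∧
      0 < δ ∧ ∀ v : E, ‖v‖ ≤ δ → |‖e + v‖ ^ 2 - 1 - φ v - B v v| ≤ η * ‖v‖ ^ 2) :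
    2 ≤ p ∧ (p = 2 → ∀ x y : E,
      ‖x + y‖ * ‖x + y‖ + ‖x - y‖ * ‖x - y‖ = 2 * (‖x‖ * ‖x‖ + ‖y‖ * ‖y‖)) := by
  constructor
  · obtain ⟨e, φ, B, δ, he, hδ, hB⟩ := h 1 one_pos
    obtain ⟨T, hT⟩ := hT e he
    refine two_le_of_bd (C := ‖B‖ + 1) hp hδ fun r hr hrδ => ?_
    have nr : ‖r • e‖ = r := by
      rw [norm_smul, he, mul_one, Real.norm_eq_abs, abs_of_nonneg hr]
    have h1 := sec_bd hT hB (v := r • e) (by rw [nr]; exact hrδ)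
    rw [nr, hF r hr] at h1
    exact h1
  · rintro rfl x y
    have hF2 : ∀ r, 0 ≤ r → F r ^ 2 - 1 = r ^ 2 := by
      intro r hr
      rw [hF r hr, ← Real.rpow_natCast, ← Real.rpow_mul (by positivity)]
      norm_num
    set M : ℝ := ‖x + y‖ ^ 2 + ‖x - y‖ ^ 2 + 2 * ‖x‖ ^ 2 + 2 * ‖y‖ ^ 2 with hM
    have hM0 : 0 ≤ M := by positivity
    have key : ∀ η : ℝ, 0 < η →
        |‖x + y‖ ^ 2 + ‖x - y‖ ^ 2 - 2 * ‖x‖ ^ 2 - 2 * ‖y‖ ^ 2| ≤ η * M := by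
      intro η hη
      obtain ⟨e, φ, B, δ, he, hδ, hB⟩ := h η hη
      obtain ⟨T, hT⟩ := hT e he
      set l : ℝ := δ / (‖x‖ + ‖y‖ + 1) with hl
      have hpos : 0 < ‖x‖ + ‖y‖ + 1 := by positivity
      have hl0 : 0 < l := by positivity
      have hln : ∀ u : E, ‖l • u‖ = l * ‖u‖ := fun u => by
        rw [norm_smul, Real.norm_eq_abs, abs_of_pos hl0]
      have hlb : ∀ u : E, ‖u‖ ≤ ‖x‖ + ‖y‖ → ‖l • u‖ ≤ δ := by
        intro u hu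
        rw [hln, hl, div_mul_eq_mul_div, div_le_iff₀ hpos]
        nlinarith
      have h1 := sec_par hT hB (v := l • x) (w := l • y)
        (hlb x (by linarith [norm_nonneg y])) (hlb y (by linarith [norm_nonneg x]))
        (by rw [← smul_add]; exact hlb _ (norm_add_le _ _))
        (by rw [← smul_sub]; exact hlb _ (norm_sub_le _ _))
      rw [← smul_add, ← smul_sub, hln, hln, hln, hln, hF2 _ (by positivity), hF2 _ (by positivity),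
        hF2 _ (by positivity), hF2 _ (by positivity)] at h1
      have h2 : (l * ‖x + y‖) ^ 2 + (l * ‖x - y‖) ^ 2 - 2 * (l * ‖x‖) ^ 2 - 2 * (l * ‖y‖) ^ 2 =
          l ^ 2 * (‖x + y‖ ^ 2 + ‖x - y‖ ^ 2 - 2 * ‖x‖ ^ 2 - 2 * ‖y‖ ^ 2) := by ring
      have h3 : η * ((l * ‖x + y‖) ^ 2 + (l * ‖x - y‖) ^ 2 + 2 * (l * ‖x‖) ^ 2 +
          2 * (l * ‖y‖) ^ 2) = l ^ 2 * (η * M) := by rw [hM]; ring
      rw [h2, h3, abs_mul, abs_of_pos (by positivity : 0 < l ^ 2)] at h1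
      exact le_of_mul_le_mul_left h1 (by positivity)
    have h0 : |‖x + y‖ ^ 2 + ‖x - y‖ ^ 2 - 2 * ‖x‖ ^ 2 - 2 * ‖y‖ ^ 2| ≤ 0 := by
      refine le_of_forall_pos_le_add fun ε hε => ?_
      have h1 := key (ε / (M + 1)) (by positivity)
      have h2 : ε / (M + 1) * M ≤ ε := by
        rw [div_mul_eq_mul_div, div_le_iff₀ (by positivity)]
        nlinarith
      linarith
    have h1 := abs_nonpos_iff.1 h0
    nlinarith

end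

end Pool.Agent.V5helper39.BG
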