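import Mathlib

set_option autoImplicit false

/-! # Almost isometric copies of `ℓ_p^n`, type and cotype -/

namespace Pool.Agent.V5helper39.BG

open Filter Topology Set

section

variable {E : Type} [NormedAddCommGroup E] [NormedSpace ℝ E]

/-- unit vectors whose signed sums have norm about `n ^ (1 / p)` -/
lemma exists_signs {p : ℝ} (hp : 1 ≤ p) {e : E} {T : ℕ → E ≃ₗᵢ[ℝ] E} (he : ‖e‖ = 1)
    (hT : ∀ (v : E) (t : ℝ), Tendsto (fun k => ‖v + t • T k e‖ ^ p) atTop
      (𝓝 (‖v‖ ^ p + |t| ^ p))) (n : ℕ) : ∀ η : ℝ, 0 < η → ∃ x : Fin n → E, (∀ i, ‖x i‖ = 1) ∧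
      ∀ ε : Fin n → Bool, |‖∑ i, (if ε i then x i else -x i)‖ ^ p - n| ≤ η := by
  have hp0 : 0 < p := by linarith
  induction n with
  | zero =>
    intro η hη
    refine ⟨fun _ => 0, fun i => i.elim0, fun ε => ?_⟩
    simp [Real.zero_rpow hp0.ne', hη.le]
  | succ n ih =>
    intro η hη
    obtain ⟨x, hx1, hx⟩ := ih (η / 2) (by positivity)
    have h1 : ∀ᶠ k in atTop, ∀ z : (Fin n → Bool) × Bool,
        |‖∑ i, (if z.1 i then x i else -x i) + (if z.2 then (1 : ℝ) else -1) • T k e‖ ^ p -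
          (‖∑ i, (if z.1 i then x i else -x i)‖ ^ p + 1)| < η / 2 := by
      rw [eventually_all]
      intro z
      have h2 := hT (∑ i, (if z.1 i then x i else -x i)) (if z.2 then (1 : ℝ) else -1)
      have h3 : |(if z.2 then (1 : ℝ) else -1)| ^ p = 1 := by
        split_ifs <;> simp
      rw [h3] at h2
      have h4 := (h2.sub_const (‖∑ i, (if z.1 i then x i else -x i)‖ ^ p + 1)).abs
      rw [sub_self, abs_zero] at h4
      exact h4.eventually (gt_mem_nhds (by positivity))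
    obtain ⟨k, hk⟩ := h1.exists
    refine ⟨Fin.cons (T k e) x, fun i => ?_, fun ε => ?_⟩
    · refine Fin.cases ?_ (fun i => ?_) i
      · rw [Fin.cons_zero, (T k).norm_map, he]
      · rw [Fin.cons_succ, hx1]
    · rw [Fin.sum_univ_succ]
      simp only [Fin.cons_zero, Fin.cons_succ]
      have h2 := hk (fun i => ε i.succ, ε 0)
      have h3 := hx (fun i => ε i.succ)
      simp only at h2
      have h4 : (if ε 0 = true then T k e else -T k e) +
          ∑ i : Fin n, (if ε i.succ = true then x i else -x i) =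
          ∑ i : Fin n, (if ε i.succ = true then x i else -x i) +
            (if ε 0 = true then (1 : ℝ) else -1) • T k e := by
        rw [add_comm]
        congr 1
        split_ifs <;> simp
      rw [h4]
      push_cast
      rw [abs_lt] at h2
      rw [abs_le] at h3 ⊢
      constructor <;> linarith [h2.1, h2.2, h3.1, h3.2]

lemma tend_ratio {a : ℝ} (ha : a < 1) (b : ℝ) :
    Tendsto (fun n : ℕ => ((n : ℝ) + b) ^ a / n) atTop (𝓝 0) := by
  have h1 : Tendsto (fun n : ℕ => ((n : ℝ) + b) ^ (-(1 - a)) * (1 + b / n)) atTop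
      (𝓝 (0 * (1 + 0))) := by
    refine Tendsto.mul ?_ ?_
    · exact (tendsto_rpow_neg_atTop (by linarith)).comp
        (tendsto_atTop_add_const_right _ _ tendsto_natCast_atTop_atTop)
    · exact (tendsto_const_div_atTop_nhds_zero_nat b).const_add 1
  rw [zero_mul] at h1
  refine h1.congr' ?_
  have h2 : Tendsto (fun n : ℕ => (n : ℝ) + b) atTop atTop :=
    tendsto_atTop_add_const_right _ _ tendsto_natCast_atTop_atTop
  filter_upwards [h2.eventually_gt_atTop 0, eventually_gt_atTop 0] with n hn hn0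
  have hn1 : (0 : ℝ) < n := by exact_mod_cast hn0
  have h3 : 1 + b / (n : ℝ) = ((n : ℝ) + b) / n := by field_simp
  rw [h3, mul_div_assoc', ← Real.rpow_add_one hn.ne']
  congr 2
  ring

/-- the exponent is at most the cotype -/
theorem le_cotype {p q : ℝ} (hp : 1 ≤ p) (hq : 0 < q) {e : E} {T : ℕ → E ≃ₗᵢ[ℝ] E} (he : ‖e‖ = 1)
    (hT : ∀ (v : E) (t : ℝ), Tendsto (fun k => ‖v + t • T k e‖ ^ p) atTop
      (𝓝 (‖v‖ ^ p + |t| ^ p)))
    (h : ∃ c : ℝ, 0 < c ∧ ∀ (n : ℕ) (x : Fin n → E), ∃ ε : Fin n → Bool,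
      c * ∑ i, ‖x i‖ ^ q ≤ ‖∑ i, (if ε i then x i else -x i)‖ ^ q) : p ≤ q := by
  have hp0 : 0 < p := by linarith
  obtain ⟨c, hc, h⟩ := h
  by_contra hcon
  push Not at hcon
  have h1 : ∀ n : ℕ, 0 < n → c ≤ ((n : ℝ) + 1) ^ (q / p) / n := by
    intro n hn
    obtain ⟨x, hx1, hx⟩ := exists_signs hp he hT n 1 one_pos
    obtain ⟨ε, hε⟩ := h n x
    have h2 := (abs_le.1 (hx ε)).2
    simp only [hx1, Real.one_rpow, Finset.sum_const, Finset.card_univ, Fintype.card_fin,
      nsmul_eq_mul, mul_one] at hε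
    have h3 : ‖∑ i, (if ε i then x i else -x i)‖ ^ q =
        (‖∑ i, (if ε i then x i else -x i)‖ ^ p) ^ (q / p) := by
      rw [← Real.rpow_mul (norm_nonneg _), mul_div_cancel₀ _ hp0.ne']
    have h4 : (‖∑ i, (if ε i then x i else -x i)‖ ^ p) ^ (q / p) ≤ ((n : ℝ) + 1) ^ (q / p) :=
      Real.rpow_le_rpow (by positivity) (by linarith) (by positivity)
    have hn1 : (0 : ℝ) < n := by exact_mod_cast hn
    rw [le_div_iff₀ hn1]
    rw [h3] at hε
    exact hε.trans h4
  have h2 := tend_ratio (a := q / p) (by rw [div_lt_one hp0]; exact hcon) 1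
  have h3 : c ≤ 0 := ge_of_tendsto h2 (by
    filter_upwards [eventually_gt_atTop 0] with n hn
    exact h1 n hn)
  linarith

/-- the exponent is at least the type -/
theorem type_le {p r : ℝ} (hp : 1 ≤ p) (hr : 0 < r) {e : E} {T : ℕ → E ≃ₗᵢ[ℝ] E} (he : ‖e‖ = 1)
    (hT : ∀ (v : E) (t : ℝ), Tendsto (fun k => ‖v + t • T k e‖ ^ p) atTop
      (𝓝 (‖v‖ ^ p + |t| ^ p)))
    (h : ∃ C : ℝ, ∀ (n : ℕ) (x : Fin n → E), ∃ ε : Fin n → Bool,
      ‖∑ i, (if ε i then x i else -x i)‖ ^ r ≤ C * ∑ i, ‖x i‖ ^ r) : r ≤ p := by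
  have hp0 : 0 < p := by linarith
  obtain ⟨C, h⟩ := h
  by_contra hcon
  push Not at hcon
  have h1 : ∀ n : ℕ, 1 < n → ((n : ℝ) + (-1)) ^ (r / p - 1) ≤ C * (1 + 1 / ((n : ℝ) + (-1))) := by
    intro n hn
    obtain ⟨x, hx1, hx⟩ := exists_signs hp he hT n 1 one_pos
    obtain ⟨ε, hε⟩ := h n x
    have h2 := (abs_le.1 (hx ε)).1
    simp only [hx1, Real.one_rpow, Finset.sum_const, Finset.card_univ, Fintype.card_fin,
      nsmul_eq_mul, mul_one] at hε
    have h3 : ‖∑ i, (if ε i then x i else -x i)‖ ^ r =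
        (‖∑ i, (if ε i then x i else -x i)‖ ^ p) ^ (r / p) := by
      rw [← Real.rpow_mul (norm_nonneg _), mul_div_cancel₀ _ hp0.ne']
    have hn1 : (1 : ℝ) < n := by exact_mod_cast hn
    have hn2 : (0 : ℝ) < (n : ℝ) + (-1) := by linarith
    have h4 : ((n : ℝ) + (-1)) ^ (r / p) ≤ (‖∑ i, (if ε i then x i else -x i)‖ ^ p) ^ (r / p) :=
      Real.rpow_le_rpow hn2.le (by linarith) (by positivity)
    rw [h3] at hε
    have h5 : ((n : ℝ) + (-1)) ^ (r / p - 1) * ((n : ℝ) + (-1)) = ((n : ℝ) + (-1)) ^ (r / p) := by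
      rw [← Real.rpow_add_one hn2.ne']
      congr 1
      ring
    have h6 : C * (1 + 1 / ((n : ℝ) + (-1))) * ((n : ℝ) + (-1)) = C * n := by
      field_simp
      ring
    refine le_of_mul_le_mul_right ?_ hn2
    rw [h5, h6]
    exact h4.trans hε
  have htop : Tendsto (fun n : ℕ => (n : ℝ) + (-1)) atTop atTop :=
    tendsto_atTop_add_const_right _ _ tendsto_natCast_atTop_atTop
  have h2 : Tendsto (fun n : ℕ => ((n : ℝ) + (-1)) ^ (r / p - 1)) atTop atTop := by
    refine (tendsto_rpow_atTop ?_).comp htop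
    rw [sub_pos, one_lt_div hp0]
    exact hcon
  have h3 : Tendsto (fun n : ℕ => C * (1 + 1 / ((n : ℝ) + (-1)))) atTop (𝓝 (C * (1 + 0))) := by
    refine ((Tendsto.const_add 1 ?_).const_mul C)
    simpa using htop.inv_tendsto_atTop.congr fun n => by simp
  have h4 := h3.eventually (gt_mem_nhds (show C * (1 + 0) < C * (1 + 0) + 1 by linarith))
  obtain ⟨n, hn1, hn2, hn3⟩ := (h4.and ((h2.eventually_gt_atTop (C * (1 + 0) + 1)).and
    (eventually_gt_atTop 1))).exists
  have := h1 n hn3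
  linarith

end

end Pool.Agent.V5helper39.BG
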