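import Pool.Agent.V5helper39.BG.Bas
import Pool.Agent.N314.OP.Two
import Pool.Agent.N314.OP.Wsc

set_option autoImplicit false

/-! # Hilbertian spaces: the exponent is two -/

namespace Pool.Agent.V5helper39.BG

open Filter Topology Set
open Pool.Agent.V5helper39.BM

/-- the exponent is determined by a quadratic estimate -/
lemma exponent_two {p c C : ℝ} (hp : 1 ≤ p) (hc : 0 < c)
    (h : ∀ r : ℝ, 0 ≤ r → r ^ 2 + c ≤ ((1 + r ^ p) ^ (1 / p)) ^ 2 ∧
      ((1 + r ^ p) ^ (1 / p)) ^ 2 ≤ r ^ 2 + C) : p = 2 := by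
  have hp0 : 0 < p := by linarith
  -- values
  have hA : ∀ n : ℕ, (((n : ℝ) + 1) ^ (1 / p)) ^ 2 + c ≤ (((n : ℝ) + 1 + 1) ^ (1 / p)) ^ 2 ∧
      (((n : ℝ) + 1 + 1) ^ (1 / p)) ^ 2 ≤ (((n : ℝ) + 1) ^ (1 / p)) ^ 2 + C := by
    intro n
    have h1 := h (((n : ℝ) + 1) ^ (1 / p)) (by positivity)
    have h2 : (((n : ℝ) + 1) ^ (1 / p)) ^ p = (n : ℝ) + 1 := by
      rw [← Real.rpow_mul (by positivity), one_div_mul_cancel hp0.ne', Real.rpow_one]
    rw [h2, add_comm (1 : ℝ) ((n : ℝ) + 1)] at h1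
    exact h1
  have hlo : ∀ n : ℕ, 1 + c * n ≤ (((n : ℝ) + 1) ^ (1 / p)) ^ 2 := by
    intro n
    induction n with
    | zero => simp
    | succ n ih =>
      have := (hA n).1
      push_cast
      linarith
  have hhi : ∀ n : ℕ, (((n : ℝ) + 1) ^ (1 / p)) ^ 2 ≤ 1 + C * n := by
    intro n
    induction n with
    | zero => simp
    | succ n ih =>
      have := (hA n).2
      push_cast
      linarith
  have hq : ∀ n : ℕ, (((n : ℝ) + 1) ^ (1 / p)) ^ 2 = ((n : ℝ) + 1) ^ (2 / p - 1) * ((n : ℝ) + 1) := by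
    intro n
    have h0 : (0 : ℝ) < (n : ℝ) + 1 := by positivity
    rw [← Real.rpow_natCast, ← Real.rpow_mul h0.le]
    nth_rewrite 3 [← Real.rpow_one ((n : ℝ) + 1)]
    rw [← Real.rpow_add h0]
    congr 1
    push_cast
    ring
  have hC : 0 ≤ C := by
    have h1 := h 0 le_rfl
    linarith [h1.1, h1.2]
  have htop : Tendsto (fun n : ℕ => (n : ℝ) + 1) atTop atTop :=
    tendsto_atTop_add_const_right _ _ tendsto_natCast_atTop_atTop
  rcases lt_trichotomy p 2 with hlt | heq | hgt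
  · exfalso
    have hpos : 0 < 2 / p - 1 := by
      rw [sub_pos, lt_div_iff₀ hp0]
      linarith
    have h1 : Tendsto (fun n : ℕ => ((n : ℝ) + 1) ^ (2 / p - 1)) atTop atTop :=
      (tendsto_rpow_atTop hpos).comp htop
    obtain ⟨n, hn⟩ := (h1.eventually_gt_atTop (1 + C)).exists
    have h2 := hhi n
    rw [hq] at h2
    have h0 : (0 : ℝ) < (n : ℝ) + 1 := by positivity
    have h3 : (1 + C) * ((n : ℝ) + 1) < ((n : ℝ) + 1) ^ (2 / p - 1) * ((n : ℝ) + 1) :=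
      mul_lt_mul_of_pos_right hn h0
    have h4 : (0 : ℝ) ≤ n := Nat.cast_nonneg n
    nlinarith
  · exact heq
  · exfalso
    have hpos : 0 < 1 - 2 / p := by
      rw [sub_pos, div_lt_one hp0]
      exact hgt
    have h1 : Tendsto (fun n : ℕ => ((n : ℝ) + 1) ^ (-(1 - 2 / p))) atTop (𝓝 0) :=
      (tendsto_rpow_neg_atTop hpos).comp htop
    have hm : 0 < min 1 c := by positivity
    obtain ⟨n, hn⟩ := (h1.eventually (gt_mem_nhds hm)).exists
    have h2 := hlo n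
    rw [hq] at h2
    have h0 : (0 : ℝ) < (n : ℝ) + 1 := by positivity
    have h3 : ((n : ℝ) + 1) ^ (2 / p - 1) * ((n : ℝ) + 1) < min 1 c * ((n : ℝ) + 1) := by
      refine mul_lt_mul_of_pos_right ?_ h0
      rwa [neg_sub] at hn
    have h4 : (0 : ℝ) ≤ n := Nat.cast_nonneg n
    have h5 : min 1 c ≤ 1 := min_le_left _ _
    have h6 : min 1 c ≤ c := min_le_right _ _
    nlinarith

section

variable {E : Type} [NormedAddCommGroup E] [NormedSpace ℝ E]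

/-- quadratic estimates for the types of weakly null sequences -/
theorem weak_bd {H : Type} [NormedAddCommGroup H] [InnerProductSpace ℝ H]
    (hAT : Pool.Agent.N314.OP.AT E) (Φ : E ≃L[ℝ] H) :
    ∃ c C : ℝ, 0 < c ∧ ∀ (τ : E → ℝ) (y : ℕ → E), (∀ n, ‖y n‖ = 1) →
      (∀ φ : StrongDual ℝ E, Tendsto (fun n => φ (y n)) atTop (𝓝 0)) →
      (∀ x, Tendsto (fun n => ‖x + y n‖) atTop (𝓝 (τ x))) →
      ∀ v, ‖v‖ ^ 2 + c ≤ τ v ^ 2 ∧ τ v ^ 2 ≤ ‖v‖ ^ 2 + C := by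
  obtain ⟨c, hc, h1⟩ := Pool.Agent.N314.OP.two_convex hAT Φ
  obtain ⟨K, hK, h2⟩ := Pool.Agent.N314.OP.two_smooth hAT Φ
  refine ⟨min (c / 4) 1, max (2 * K + K ^ 2) 3, by positivity, ?_⟩
  intro τ y hy hw h v
  have hτ0 : 0 ≤ τ v := ge_of_tendsto' (h v) fun n => norm_nonneg _
  have hweak : ∀ (s : ℝ) (f : StrongDual ℝ E), Tendsto (fun n => f (v + s • y n)) atTop (𝓝 (f v)) := by
    intro s f
    have := ((hw f).const_mul s).const_add (f v)
    simpa only [map_add, map_smul, smul_eq_mul, mul_zero, add_zero] using this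
  constructor
  · obtain ⟨m, φ, hφ, hm⟩ := Pool.Agent.N314.OP.exists_sub
      (u := fun n => ‖v + (1 / 2 : ℝ) • y n‖) (C := ‖v‖ + 1) (fun n => by
        rw [abs_norm]
        refine (norm_add_le _ _).trans ?_
        rw [norm_smul, hy]
        norm_num)
    have e1 : ‖v‖ ≤ m := Pool.Agent.N314.OP.norm_le_of_weak
      (fun f => (hweak (1 / 2) f).comp hφ.tendsto_atTop) hm
    have e2 : c / 4 ≤ τ v ^ 2 + ‖v‖ ^ 2 - 2 * m ^ 2 := by
      refine ge_of_tendsto' (((((h v).comp hφ.tendsto_atTop).pow 2).add_const (‖v‖ ^ 2)).sub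
        ((hm.pow 2).const_mul 2)) fun n => ?_
      have e3 := h1 (v + (1 / 2 : ℝ) • y (φ n)) ((1 / 2 : ℝ) • y (φ n))
      have e4 : v + (1 / 2 : ℝ) • y (φ n) + (1 / 2 : ℝ) • y (φ n) = v + y (φ n) := by module
      have e5 : v + (1 / 2 : ℝ) • y (φ n) - (1 / 2 : ℝ) • y (φ n) = v := by module
      rw [e4, e5, norm_smul, hy] at e3
      simp only [Function.comp]
      norm_num at e3 ⊢
      linarith
    have e6 : min (c / 4) 1 ≤ c / 4 := min_le_left _ _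
    have e7 := norm_nonneg v
    nlinarith
  · have hle : τ v ≤ ‖v‖ + 1 := le_of_tendsto' (h v) fun n => by
      refine (norm_add_le _ _).trans ?_
      rw [hy]
    rcases lt_or_ge ‖v‖ 1 with hv | hv
    · have e1 : (3 : ℝ) ≤ max (2 * K + K ^ 2) 3 := le_max_right _ _
      have e2 := norm_nonneg v
      nlinarith
    · have hv0 : 0 < ‖v‖ := by linarith
      obtain ⟨m, φ, hφ, hm⟩ := Pool.Agent.N314.OP.exists_sub
        (u := fun n => ‖v + (-1 : ℝ) • y n‖) (C := ‖v‖ + 1) (fun n => by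
          rw [abs_norm]
          refine (norm_add_le _ _).trans ?_
          rw [norm_smul, hy]
          norm_num)
      have e1 : ‖v‖ ≤ m := Pool.Agent.N314.OP.norm_le_of_weak
        (fun f => (hweak (-1) f).comp hφ.tendsto_atTop) hm
      have e2 : τ v + m ≤ 2 * ‖v‖ + K / ‖v‖ := by
        refine le_of_tendsto' (((h v).comp hφ.tendsto_atTop).add hm) fun n => ?_
        have e3 := h2 (‖v‖⁻¹ • v) (‖v‖⁻¹ • y (φ n))
          (by rw [norm_smul, norm_inv, norm_norm, inv_mul_cancel₀ hv0.ne'])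
        have e4 : ‖v‖⁻¹ • v + ‖v‖⁻¹ • y (φ n) = ‖v‖⁻¹ • (v + y (φ n)) := by module
        have e5 : ‖v‖⁻¹ • v - ‖v‖⁻¹ • y (φ n) = ‖v‖⁻¹ • (v + (-1 : ℝ) • y (φ n)) := by module
        rw [e4, e5, norm_smul, norm_smul, norm_smul, norm_smul, norm_inv, norm_norm, hy] at e3
        simp only [Function.comp]
        have e6 : ‖v‖ * (‖v‖⁻¹ * ‖v + y (φ n)‖ + ‖v‖⁻¹ * ‖v + (-1 : ℝ) • y (φ n)‖ -
            2 * (‖v‖⁻¹ * ‖v‖)) ≤ ‖v‖ * (K * (‖v‖⁻¹ * 1) ^ 2) := by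
          refine mul_le_mul_of_nonneg_left ?_ hv0.le
          exact e3
        have e7 : ‖v‖ * (‖v‖⁻¹ * ‖v + y (φ n)‖ + ‖v‖⁻¹ * ‖v + (-1 : ℝ) • y (φ n)‖ -
            2 * (‖v‖⁻¹ * ‖v‖)) = ‖v + y (φ n)‖ + ‖v + (-1 : ℝ) • y (φ n)‖ - 2 * ‖v‖ := by
          field_simp
        have e8 : ‖v‖ * (K * (‖v‖⁻¹ * 1) ^ 2) = K / ‖v‖ := by
          field_simp
        rw [e7, e8] at e6
        linarith
      have e3 : τ v ≤ ‖v‖ + K / ‖v‖ := by linarith
      have e4 : K / ‖v‖ ≤ K := div_le_self hK.le hv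
      have e5 : 0 ≤ K / ‖v‖ := by positivity
      have e6 : ‖v‖ * (K / ‖v‖) = K := by field_simp
      have e7 : τ v ^ 2 ≤ (‖v‖ + K / ‖v‖) ^ 2 := by gcongr
      have e8 : (‖v‖ + K / ‖v‖) ^ 2 = ‖v‖ ^ 2 + 2 * K + (K / ‖v‖) ^ 2 := by
        have : (‖v‖ + K / ‖v‖) ^ 2 = ‖v‖ ^ 2 + 2 * (‖v‖ * (K / ‖v‖)) + (K / ‖v‖) ^ 2 := by ring
        rw [this, e6]
      have e9 : (K / ‖v‖) ^ 2 ≤ K ^ 2 := by gcongr
      have e10 : 2 * K + K ^ 2 ≤ max (2 * K + K ^ 2) 3 := le_max_left _ _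
      rw [e8] at e7
      linarith

end

end Pool.Agent.V5helper39.BG
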