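import Pool.Agent.V5helper39.BG.Orb
import Pool.Agent.V5helper39.BG.Two
import Pool.Agent.V5helper39.BG.Sec
import Pool.Agent.V5helper39.BG.Tco

set_option autoImplicit false

/-! # Assembly -/

namespace Pool.Agent.V5helper39.BG

open Filter Topology Set TopologicalSpace
open Pool.Agent.V5helper39.BM

section

variable {E : Type} [NormedAddCommGroup E] [NormedSpace ℝ E]

lemma pow_val {p : ℝ} (hp : 1 ≤ p) {F : ℝ → ℝ} (hF : ∀ r, 0 ≤ r → F r = (1 + r ^ p) ^ (1 / p))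
    (v : E) {t : ℝ} (ht : t ≠ 0) : (|t| * F (‖v‖ / |t|)) ^ p = ‖v‖ ^ p + |t| ^ p := by
  have hp0 : 0 < p := by linarith
  have ht0 : 0 < |t| := abs_pos.2 ht
  have hr : 0 ≤ ‖v‖ / |t| := by positivity
  rw [hF _ hr, Real.mul_rpow ht0.le (by positivity), ← Real.rpow_mul (by positivity),
    one_div_mul_cancel hp0.ne', Real.rpow_one, Real.div_rpow (norm_nonneg v) ht0.le]
  have h1 : 0 < |t| ^ p := Real.rpow_pos_of_pos ht0 p
  field_simp
  ring

/-- change of scale -/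
lemma lim_pow {p : ℝ} (hp : 1 ≤ p) {F : ℝ → ℝ} (hF : ∀ r, 0 ≤ r → F r = (1 + r ^ p) ^ (1 / p))
    {y : ℕ → E} (h : ∀ x : E, Tendsto (fun n => ‖x + y n‖) atTop (𝓝 (F ‖x‖))) (v : E) (t : ℝ) :
    Tendsto (fun n => ‖v + t • y n‖ ^ p) atTop (𝓝 (‖v‖ ^ p + |t| ^ p)) := by
  have hp0 : 0 < p := by linarith
  by_cases ht : t = 0
  · subst ht
    simp only [zero_smul, add_zero, abs_zero, Real.zero_rpow hp0.ne']
    exact tendsto_const_nhds
  rw [← pow_val hp hF v ht]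
  refine Tendsto.rpow_const ?_ (Or.inr hp0.le)
  have h1 := (h (t⁻¹ • v)).const_mul |t|
  have h2 : ‖t⁻¹ • v‖ = ‖v‖ / |t| := by
    rw [norm_smul, norm_inv, Real.norm_eq_abs]
    field_simp
  rw [h2] at h1
  refine h1.congr fun n => ?_
  rw [← Real.norm_eq_abs, ← norm_smul, smul_add, smul_smul, mul_inv_cancel₀ ht, one_smul]

/-- if two types depend on the norm only, they are equal -/
lemma rad_unique [SeparableSpace E] (hst : Stable E) (hAT : Pool.Agent.N314.OP.AT E) {e : E}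
    (he : ‖e‖ = 1) {y y' : ℕ → E} {F F' : ℝ → ℝ} (hy : ∀ n, ‖y n‖ = 1)
    (hF : ∀ x : E, Tendsto (fun n => ‖x + y n‖) atTop (𝓝 (F ‖x‖))) (hy' : ∀ n, ‖y' n‖ = 1)
    (hF' : ∀ x : E, Tendsto (fun n => ‖x + y' n‖) atTop (𝓝 (F' ‖x‖))) (r : ℝ) (hr : 0 ≤ r) :
    F' r = F r := by
  obtain ⟨T, hT⟩ := exists_isometries hst hAT he hy hF (UT_of_lim hy' hF')
  have h1 := hT (r • e)
  have h2 : ‖r • e‖ = r := by rw [norm_smul, he, mul_one, Real.norm_eq_abs, abs_of_nonneg hr]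
  simp only [LinearIsometryEquiv.norm_map, h2] at h1
  exact tendsto_nhds_unique tendsto_const_nhds h1

theorem main [SeparableSpace E] (hinf : ¬ FiniteDimensional ℝ E) (hAT : Pool.Agent.N314.OP.AT E)
    (hst : Stable E) :
    ∃ p : ℝ, 1 ≤ p ∧
      (∀ e : E, ‖e‖ = 1 → ∃ T : ℕ → E ≃ₗᵢ[ℝ] E,
        (∀ (v : E) (t : ℝ), Tendsto (fun k => ‖v + t • T k e‖ ^ p) atTop
          (𝓝 (‖v‖ ^ p + |t| ^ p))) ∧
        (Function.Surjective (NormedSpace.inclusionInDoubleDual ℝ E) →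
          ∀ φ : StrongDual ℝ E, Tendsto (fun k => φ (T k e)) atTop (𝓝 0))) ∧
      (∀ z : ℕ → E, (∀ n, ‖z n‖ = 1) → ∃ (ψ : ℕ → ℕ) (T : ℕ → E ≃ₗᵢ[ℝ] E) (G : ℕ → E → ℝ → ℝ),
        StrictMono ψ ∧
        (∀ k v t, Tendsto (fun n => ‖v + t • T k (z (ψ n))‖) atTop (𝓝 (G k v t))) ∧
        ∀ (v : E) (t : ℝ), Tendsto (fun k => G k v t ^ p) atTop (𝓝 (‖v‖ ^ p + |t| ^ p))) ∧
      (∀ r : ℝ, 0 < r → (∃ C : ℝ, ∀ (n : ℕ) (x : Fin n → E), ∃ ε : Fin n → Bool,
        ‖∑ i, (if ε i then x i else -x i)‖ ^ r ≤ C * ∑ i, ‖x i‖ ^ r) → r ≤ p) ∧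
      (∀ q : ℝ, 0 < q → (∃ c : ℝ, 0 < c ∧ ∀ (n : ℕ) (x : Fin n → E), ∃ ε : Fin n → Bool,
        c * ∑ i, ‖x i‖ ^ q ≤ ‖∑ i, (if ε i then x i else -x i)‖ ^ q) → p ≤ q) ∧
      (∀ (H : Type) [NormedAddCommGroup H] [InnerProductSpace ℝ H] [CompleteSpace H],
        Nonempty (E ≃L[ℝ] H) → p = 2) ∧
      ((∀ η : ℝ, 0 < η → ∃ (e : E) (φ : E →L[ℝ] ℝ) (B : E →L[ℝ] E →L[ℝ] ℝ) (δ : ℝ), ‖e‖ = 1 ∧
        0 < δ ∧ ∀ v : E, ‖v‖ ≤ δ → |‖e + v‖ ^ 2 - 1 - φ v - B v v| ≤ η * ‖v‖ ^ 2) →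
        2 ≤ p ∧ (p = 2 → ∀ x y : E,
          ‖x + y‖ * ‖x + y‖ + ‖x - y‖ * ‖x - y‖ = 2 * (‖x‖ * ‖x‖ + ‖y‖ * ‖y‖))) := by
  obtain ⟨y, F, hy, -, hF⟩ := exists_rad (wn := False) hst hAT (fun h => h.elim)
    (WG_nonempty hinf hst)
  have he : ∃ e : E, ‖e‖ = 1 := ⟨y 0, hy 0⟩
  obtain ⟨e₀, he₀⟩ := he
  obtain ⟨p, hp, hFp⟩ := boh (bh_of_rad hst he₀ hy hF)
  have hp0 : 0 < p := by linarith
  -- weakly null sequences
  have hwk : Function.Surjective (NormedSpace.inclusionInDoubleDual ℝ E) →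
      ∃ y' : ℕ → E, (∀ n, ‖y' n‖ = 1) ∧
        (∀ φ : StrongDual ℝ E, Tendsto (fun n => φ (y' n)) atTop (𝓝 0)) ∧
        ∀ x : E, Tendsto (fun n => ‖x + y' n‖) atTop (𝓝 (F ‖x‖)) := by
    intro hrefl
    have hW := Pool.Agent.N314.OP.wsc_of_uw (Pool.Agent.N314.OP.uw_of_reflexive hrefl)
      Pool.Agent.N314.OP.sep_of_separable
    have hne : (WG True E).Nonempty := by
      obtain ⟨y', hy0, hy1⟩ := Pool.Agent.N314.OP.exists_null hinf hW
      obtain ⟨ψ, τ, hψ, hτ⟩ := exists_lim_sub (fun n x => ‖x + y' n‖) (fun x => ‖x‖ + 1)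
        (fun n x => by
          rw [abs_norm]
          exact (norm_add_le _ _).trans (by rw [hy1]))
        (fun n x x' => by
          have := abs_norm_sub_norm_le (x + y' n) (x' + y' n)
          rwa [add_sub_add_right_eq_sub] at this)
      refine ⟨τ, fun n => y' (ψ n), fun n => hy1 _, fun _ φ => (hy0 φ).comp hψ.tendsto_atTop, hτ,
        fun x => ?_⟩
      refine Pool.Agent.N314.OP.norm_le_of_weak (u := fun n => x + y' (ψ n)) (fun f => ?_) (hτ x)
      have := ((hy0 f).comp hψ.tendsto_atTop).const_add (f x)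
      simpa only [map_add, add_zero, Function.comp] using this
    obtain ⟨y', F', hy', hw', hF'⟩ := exists_rad (wn := True) hst hAT (fun _ => hW) hne
    refine ⟨y', hy', hw' trivial, fun x => ?_⟩
    rw [← rad_unique hst hAT he₀ hy hF hy' hF' ‖x‖ (norm_nonneg x)]
    exact hF' x
  have hkey : ∀ e : E, ‖e‖ = 1 → ∃ T : ℕ → E ≃ₗᵢ[ℝ] E,
      (∀ x : E, Tendsto (fun k => ‖x + T k e‖) atTop (𝓝 (F ‖x‖))) ∧
      (Function.Surjective (NormedSpace.inclusionInDoubleDual ℝ E) →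
        ∀ φ : StrongDual ℝ E, Tendsto (fun k => φ (T k e)) atTop (𝓝 0)) := by
    intro e he
    obtain ⟨y', hy', hw', hF'⟩ : ∃ y' : ℕ → E, (∀ n, ‖y' n‖ = 1) ∧
        (Function.Surjective (NormedSpace.inclusionInDoubleDual ℝ E) →
          ∀ φ : StrongDual ℝ E, Tendsto (fun n => φ (y' n)) atTop (𝓝 0)) ∧
        ∀ x : E, Tendsto (fun n => ‖x + y' n‖) atTop (𝓝 (F ‖x‖)) := by
      by_cases hrefl : Function.Surjective (NormedSpace.inclusionInDoubleDual ℝ E)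
      · obtain ⟨y', h1, h2, h3⟩ := hwk hrefl
        exact ⟨y', h1, fun _ => h2, h3⟩
      · exact ⟨y, hy, fun h => absurd h hrefl, hF⟩
    choose T hT using fun n : ℕ => hAT e (y' n) he (hy' n) (1 / ((n : ℝ) + 1)) (by positivity)
    have hd : Tendsto (fun n => T n e - y' n) atTop (𝓝 0) :=
      squeeze_zero_norm (fun n => (hT n).le) tendsto_one_div_add_atTop_nhds_zero_nat
    refine ⟨T, fun x => ?_, fun hrefl φ => ?_⟩
    · have h1 : Tendsto (fun n => ‖x + T n e‖ - ‖x + y' n‖) atTop (𝓝 0) := by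
        have h2 := hd.norm
        rw [norm_zero] at h2
        refine squeeze_zero_norm (fun n => ?_) h2
        rw [Real.norm_eq_abs]
        refine (abs_norm_sub_norm_le _ _).trans (le_of_eq ?_)
        rw [add_sub_add_left_eq_sub]
      have := h1.add (hF' x)
      simpa using this
    · have h1 := ((φ.continuous.tendsto _).comp hd).add (hw' hrefl φ)
      simpa using h1
  refine ⟨p, hp, fun e he => ?_, fun z hz => ?_, fun r hr h => ?_, fun q hq h => ?_,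
    fun H _ _ _ hH => ?_, fun hsec => ?_⟩
  · obtain ⟨T, h1, h2⟩ := hkey e he
    exact ⟨T, fun v t => lim_pow hp hFp (y := fun n => T n e) h1 v t, h2⟩
  · obtain ⟨ψ, τ, hψ, hτ⟩ := exists_lim_sub (fun n x => ‖x + z n‖) (fun x => ‖x‖ + 1)
        (fun n x => by
          rw [abs_norm]
          exact (norm_add_le _ _).trans (by rw [hz]))
        (fun n x x' => by
          have := abs_norm_sub_norm_le (x + z n) (x' + z n)
          rwa [add_sub_add_right_eq_sub] at this)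
    obtain ⟨T, hT⟩ := exists_isometries hst hAT he₀ hy hF (UT_of_lim (fun n => hz (ψ n)) hτ)
    refine ⟨ψ, fun k => (T k).symm, fun k v t => if t = 0 then ‖v‖ else |t| * τ (T k (t⁻¹ • v)), hψ,
      fun k v t => ?_, fun v t => ?_⟩
    · by_cases ht : t = 0
      · simp only [ht, if_true, zero_smul, add_zero]
        exact tendsto_const_nhds
      · simp only [ht, if_false]
        refine ((hτ (T k (t⁻¹ • v))).const_mul |t|).congr fun n => ?_
        have h1 : v + t • (T k).symm (z (ψ n)) = (T k).symm (t • (T k (t⁻¹ • v) + z (ψ n))) := by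
          rw [map_smul, map_add, (T k).symm_apply_apply, smul_add, smul_smul, mul_inv_cancel₀ ht,
            one_smul]
        rw [h1, (T k).symm.norm_map, norm_smul, Real.norm_eq_abs]
    · by_cases ht : t = 0
      · simp only [ht, if_true, abs_zero, Real.zero_rpow hp0.ne', add_zero]
        exact tendsto_const_nhds
      · simp only [ht, if_false]
        rw [← pow_val hp hFp v ht]
        refine Tendsto.rpow_const ?_ (Or.inr hp0.le)
        have h1 := (hT (t⁻¹ • v)).const_mul |t|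
        have h2 : ‖t⁻¹ • v‖ = ‖v‖ / |t| := by
          rw [norm_smul, norm_inv, Real.norm_eq_abs]
          field_simp
        rwa [h2] at h1
  · obtain ⟨T, h1, -⟩ := hkey e₀ he₀
    exact type_le hp hr he₀ (fun v t => lim_pow hp hFp (y := fun n => T n e₀) h1 v t) h
  · obtain ⟨T, h1, -⟩ := hkey e₀ he₀
    exact le_cotype hp hq he₀ (fun v t => lim_pow hp hFp (y := fun n => T n e₀) h1 v t) h
  · obtain ⟨Φ⟩ := hH
    obtain ⟨y', hy', hw', hF'⟩ := hwk (Pool.Agent.N314.OP.reflexive_of_hilbertian Φ)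
    obtain ⟨c, C, hc, hB⟩ := weak_bd hAT Φ
    refine exponent_two hp hc (C := C) fun r hr => ?_
    have h1 := hB (fun x => F ‖x‖) y' hy' hw' hF' (r • e₀)
    have h2 : ‖r • e₀‖ = r := by
      rw [norm_smul, he₀, mul_one, Real.norm_eq_abs, abs_of_nonneg hr]
    simp only [h2, hFp r hr] at h1
    exact h1
  · refine sec_main hp hFp (fun e he => ?_) hsec
    obtain ⟨T, h1, -⟩ := hkey e he
    exact ⟨T, h1⟩

end

end Pool.Agent.V5helper39.BG
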