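import Pool.Agent.V5helper39.BG.Walk

set_option autoImplicit false

/-! # Stable spaces: no type of a weakly null sequence agrees with the norm on a sphere -/

namespace Pool.Agent.V5helper39.BG

open Filter Topology Set
open Pool.Agent.V5helper39.BM

section

variable {wn : Prop} {E : Type} [NormedAddCommGroup E] [NormedSpace ℝ E]

/-- data of the construction -/
structure St (E : Type) where
  x : E
  W : Finset E
  k : ℕ

/-- existence of the next index -/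
lemma noc_next {σ : E → ℝ} {y : ℕ → E} (hσ : ∀ x, Tendsto (fun n => ‖x + y n‖) atTop (𝓝 (σ x)))
    {r : ℝ} (hr : ∀ v, r ≤ ‖v‖ → σ v = ‖v‖) (J : ℕ) (S : St E) (ε : ℝ) :
    ∃ k : ℕ, 0 < ε → (∀ w ∈ S.W, r ≤ ‖w‖) → S.k < k ∧ (∀ w ∈ S.W, |‖w + y k‖ - ‖w‖| ≤ ε) ∧
      ∀ j ∈ Finset.range J, |‖S.x + ((j : ℝ) + 1) • y k‖ -
        ((j : ℝ) + 1) * σ (((j : ℝ) + 1)⁻¹ • S.x)| ≤ ε := by
  by_cases hε : 0 < ε
  swap
  · exact ⟨0, fun h => absurd h hε⟩
  by_cases hW : ∀ w ∈ S.W, r ≤ ‖w‖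
  swap
  · exact ⟨0, fun _ h => absurd h hW⟩
  have h1 : ∀ᶠ k in atTop, ∀ w ∈ S.W, |‖w + y k‖ - ‖w‖| ≤ ε := by
    rw [Finset.eventually_all]
    intro w hw
    have h2 := hσ w
    rw [hr w (hW w hw)] at h2
    have h3 : Tendsto (fun k => |‖w + y k‖ - ‖w‖|) atTop (𝓝 0) := by
      have := (h2.sub_const ‖w‖).abs
      rwa [sub_self, abs_zero] at this
    filter_upwards [h3.eventually (gt_mem_nhds hε)] with k hk
    exact hk.le
  have h2 : ∀ᶠ k in atTop, ∀ j ∈ Finset.range J, |‖S.x + ((j : ℝ) + 1) • y k‖ -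
        ((j : ℝ) + 1) * σ (((j : ℝ) + 1)⁻¹ • S.x)| ≤ ε := by
    rw [Finset.eventually_all]
    intro j _
    have hj : (0 : ℝ) < (j : ℝ) + 1 := by positivity
    have h3 : Tendsto (fun k => |‖S.x + ((j : ℝ) + 1) • y k‖ -
        ((j : ℝ) + 1) * σ (((j : ℝ) + 1)⁻¹ • S.x)|) atTop (𝓝 0) := by
      have h4 := (((hσ (((j : ℝ) + 1)⁻¹ • S.x)).const_mul ((j : ℝ) + 1)).sub_const
        (((j : ℝ) + 1) * σ (((j : ℝ) + 1)⁻¹ • S.x))).abs
      rw [sub_self, abs_zero] at h4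
      refine h4.congr fun k => ?_
      congr 2
      have h5 : S.x + ((j : ℝ) + 1) • y k = ((j : ℝ) + 1) • (((j : ℝ) + 1)⁻¹ • S.x + y k) := by
        rw [smul_add, smul_smul, mul_inv_cancel₀ hj.ne', one_smul]
      rw [h5, norm_smul, Real.norm_eq_abs, abs_of_pos hj]
    filter_upwards [h3.eventually (gt_mem_nhds hε)] with k hk
    exact hk.le
  obtain ⟨k, h3, h4, h5⟩ := (h1.and (h2.and (eventually_gt_atTop S.k))).exists
  exact ⟨k, fun _ _ => ⟨h5, h3, h4⟩⟩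

/-- a geometric sequence of errors -/
noncomputable def ee (ε₀ : ℝ) (n : ℕ) : ℝ := ε₀ * (1 / 2) ^ (n + 1)

lemma ee_pos {ε₀ : ℝ} (h : 0 < ε₀) (n : ℕ) : 0 < ee ε₀ n := by unfold ee; positivity

/-- the construction -/
lemma noc_seq {σ : E → ℝ} {y : ℕ → E} (hσ : ∀ x, Tendsto (fun n => ‖x + y n‖) atTop (𝓝 (σ x)))
    {r : ℝ} (hr0 : 0 < r) (hr : ∀ v, r ≤ ‖v‖ → σ v = ‖v‖) (J : ℕ) {e : E} (he : ‖e‖ = 1)
    {ε₀ : ℝ} (hε₀ : 0 < ε₀) (hεr : ε₀ ≤ r) :
    ∃ (x z : ℕ → E) (k : ℕ → ℕ), StrictMono k ∧ (∀ n, z n = y (k n)) ∧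
      (∀ n, x (n + 1) = x n + z n) ∧
      (∀ n, r ≤ ‖x n‖ ∧ ‖x n‖ ≤ 2 * r + ε₀) ∧
      (∀ n, ∀ j < J, |‖x n + ((j : ℝ) + 1) • z n‖ - ((j : ℝ) + 1) * σ (((j : ℝ) + 1)⁻¹ • x n)| ≤
        ee ε₀ n) ∧
      ∀ (m n : ℕ) (j : ℕ), m < n → j < J →
        |‖x (n + 1) + (j : ℝ) • z m‖ - ‖x n + (j : ℝ) • z m‖| ≤ ee ε₀ n := by
  classical
  choose nx hnx using fun (S : St E) (ε : ℝ) => noc_next hσ hr J S ε
  let stp : ℕ → St E → St E := fun n S =>
    ⟨S.x + y (nx S (ee ε₀ n)), S.W.image (fun w => w + y (nx S (ee ε₀ n))) ∪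
      (Finset.range J).image (fun j : ℕ => S.x + ((j : ℝ) + 1) • y (nx S (ee ε₀ n))),
      nx S (ee ε₀ n)⟩
  let S : ℕ → St E := fun n => Nat.rec ⟨(2 * r) • e, {(2 * r) • e}, 0⟩ (fun n S => stp n S) n
  have hS : ∀ n, S (n + 1) = stp n (S n) := fun n => rfl
  have hx1 : ∀ n, (S (n + 1)).x = (S n).x + y (S (n + 1)).k := fun n => rfl
  have hk1 : ∀ n, (S (n + 1)).k = nx (S n) (ee ε₀ n) := fun n => rfl
  have hW1 : ∀ n, (S (n + 1)).W = (S n).W.image (fun w => w + y (S (n + 1)).k) ∪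
      (Finset.range J).image (fun j : ℕ => (S n).x + ((j : ℝ) + 1) • y (S (n + 1)).k) := fun n => rfl
  have hpw : ∀ n : ℕ, ε₀ * (1 - (1 / 2 : ℝ) ^ (n + 1)) = ε₀ * (1 - (1 / 2 : ℝ) ^ n) + ee ε₀ n := by
    intro n
    unfold ee
    rw [pow_succ]
    ring
  have hpw1 : ∀ n : ℕ, ε₀ * (1 - (1 / 2 : ℝ) ^ n) ≤ ε₀ := by
    intro n
    have : (0 : ℝ) < (1 / 2) ^ n := by positivity
    nlinarith
  -- invariants
  have hinv : ∀ n, (S n).x ∈ (S n).W ∧ (∀ w ∈ (S n).W, 2 * r - ε₀ * (1 - (1 / 2 : ℝ) ^ n) ≤ ‖w‖) ∧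
      ‖(S n).x‖ ≤ 2 * r + ε₀ * (1 - (1 / 2 : ℝ) ^ n) := by
    intro n
    induction n with
    | zero =>
      have h1 : ‖(2 * r) • e‖ = 2 * r := by
        rw [norm_smul, he, mul_one, Real.norm_eq_abs, abs_of_pos (by linarith)]
      refine ⟨Finset.mem_singleton_self _, fun w hw => ?_, ?_⟩
      · rw [Finset.mem_singleton.1 hw, h1]; simp
      · show ‖(2 * r) • e‖ ≤ _
        rw [h1]; simp
    | succ n ih =>
      obtain ⟨i1, i2, i3⟩ := ih
      have hge : ∀ w ∈ (S n).W, r ≤ ‖w‖ := fun w hw => by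
        have h1 := i2 w hw
        have h2 := hpw1 n
        linarith
      obtain ⟨j1, j2, j3⟩ := hnx (S n) (ee ε₀ n) (ee_pos hε₀ n) hge
      rw [← hk1] at j1 j2 j3
      refine ⟨?_, fun w hw => ?_, ?_⟩
      · rw [hW1, Finset.mem_union]
        exact Or.inl (Finset.mem_image.2 ⟨(S n).x, i1, (hx1 n).symm⟩)
      · rw [hpw]
        rw [hW1, Finset.mem_union] at hw
        rcases hw with hw | hw
        · obtain ⟨w', hw', rfl⟩ := Finset.mem_image.1 hw
          have h1 := (abs_le.1 (j2 w' hw')).1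
          have h2 := i2 w' hw'
          linarith
        · obtain ⟨j, hj, rfl⟩ := Finset.mem_image.1 hw
          have h1 := (abs_le.1 (j3 j hj)).1
          have h2 := i2 _ i1
          have hj0 : (0 : ℝ) < (j : ℝ) + 1 := by positivity
          -- `σ` dominates the norm (as it is the norm far out)
          have h3 : ‖(S n).x‖ ≤ ((j : ℝ) + 1) * σ (((j : ℝ) + 1)⁻¹ • (S n).x) := by
            -- limit of `‖x + (j+1) y‖`, at least `‖x‖` by convexity in the coefficient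
            have hlim1 : Tendsto (fun k => ‖(S n).x + y k‖) atTop (𝓝 ‖(S n).x‖) := by
              have := hσ (S n).x
              rwa [hr _ (hge _ i1)] at this
            have hlim2 : Tendsto (fun k => ‖(S n).x + ((j : ℝ) + 1) • y k‖) atTop
                (𝓝 (((j : ℝ) + 1) * σ (((j : ℝ) + 1)⁻¹ • (S n).x))) := by
              refine ((hσ (((j : ℝ) + 1)⁻¹ • (S n).x)).const_mul ((j : ℝ) + 1)).congr fun k => ?_
              have h5 : (S n).x + ((j : ℝ) + 1) • y k =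
                  ((j : ℝ) + 1) • (((j : ℝ) + 1)⁻¹ • (S n).x + y k) := by
                rw [smul_add, smul_smul, mul_inv_cancel₀ hj0.ne', one_smul]
              rw [h5, norm_smul, Real.norm_eq_abs, abs_of_pos hj0]
            have hlim3 : Tendsto (fun k => (1 - ((j : ℝ) + 1)⁻¹) * ‖(S n).x‖ +
                ((j : ℝ) + 1)⁻¹ * ‖(S n).x + ((j : ℝ) + 1) • y k‖) atTop
                (𝓝 ((1 - ((j : ℝ) + 1)⁻¹) * ‖(S n).x‖ + ((j : ℝ) + 1)⁻¹ *
                  (((j : ℝ) + 1) * σ (((j : ℝ) + 1)⁻¹ • (S n).x)))) :=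
              (hlim2.const_mul _).const_add _
            have hinv1 : ((j : ℝ) + 1)⁻¹ ≤ 1 := by
              rw [inv_le_one₀ hj0]
              have : (0 : ℝ) ≤ j := Nat.cast_nonneg j
              linarith
            have hinv0 : 0 < ((j : ℝ) + 1)⁻¹ := by positivity
            have h6 := le_of_tendsto_of_tendsto' hlim1 hlim3 fun k => by
              have h7 : (S n).x + y k = (1 - ((j : ℝ) + 1)⁻¹) • (S n).x +
                  ((j : ℝ) + 1)⁻¹ • ((S n).x + ((j : ℝ) + 1) • y k) := by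
                rw [smul_add, smul_smul, inv_mul_cancel₀ hj0.ne', one_smul, sub_smul, one_smul]
                abel
              calc ‖(S n).x + y k‖ = ‖(1 - ((j : ℝ) + 1)⁻¹) • (S n).x +
                  ((j : ℝ) + 1)⁻¹ • ((S n).x + ((j : ℝ) + 1) • y k)‖ := by rw [← h7]
                _ ≤ _ := by
                  refine (norm_add_le _ _).trans (le_of_eq ?_)
                  rw [norm_smul, norm_smul, Real.norm_eq_abs, Real.norm_eq_abs,
                    abs_of_nonneg (by linarith), abs_of_pos hinv0]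
            have h8 : ((j : ℝ) + 1)⁻¹ * ‖(S n).x‖ ≤ ((j : ℝ) + 1)⁻¹ *
                (((j : ℝ) + 1) * σ (((j : ℝ) + 1)⁻¹ • (S n).x)) := by linarith
            exact le_of_mul_le_mul_left h8 hinv0
          linarith
      · rw [hpw, hx1]
        have h1 := (abs_le.1 (j2 _ i1)).2
        linarith
  have hge : ∀ n, ∀ w ∈ (S n).W, r ≤ ‖w‖ := fun n w hw => by
    have h1 := (hinv n).2.1 w hw
    have h2 := hpw1 n
    linarith
  have hall := fun n => hnx (S n) (ee ε₀ n) (ee_pos hε₀ n) (hge n)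
  have hmem : ∀ (m n : ℕ) (j : ℕ), m < n → j < J →
      (S n).x + (j : ℝ) • y (S (m + 1)).k ∈ (S n).W := by
    intro m n j hmn hj
    obtain ⟨d, rfl⟩ : ∃ d, n = m + 1 + d := ⟨n - (m + 1), by omega⟩
    clear hmn
    induction d with
    | zero =>
      rw [add_zero, hW1, Finset.mem_union]
      refine Or.inr (Finset.mem_image.2 ⟨j, Finset.mem_range.2 hj, ?_⟩)
      rw [hx1]
      module
    | succ d ih =>
      rw [← add_assoc, hW1, Finset.mem_union]
      refine Or.inl (Finset.mem_image.2 ⟨_, ih, ?_⟩)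
      rw [hx1 (m + 1 + d)]
      abel
  refine ⟨fun n => (S n).x, fun n => y (S (n + 1)).k, fun n => (S (n + 1)).k, ?_, fun n => rfl,
    fun n => hx1 n, fun n => ⟨hge n _ (hinv n).1, ?_⟩, fun n j hj => ?_, fun m n j hmn hj => ?_⟩
  · refine strictMono_nat_of_lt_succ fun n => ?_
    exact (hall (n + 1)).1
  · have h1 := (hinv n).2.2
    have h2 := hpw1 n
    linarith
  · exact (hall n).2.2 j (Finset.mem_range.2 hj)
  · have h1 := (hall n).2.1 _ (hmem m n j hmn hj)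
    have h2 : (S (n + 1)).x + (j : ℝ) • y (S (m + 1)).k =
        (S n).x + (j : ℝ) • y (S (m + 1)).k + y (nx (S n) (ee ε₀ n)) := by
      rw [hx1, hk1 n]
      abel
    simp only
    rw [h2]
    exact h1

/-- **no type of a weakly null sequence agrees with the norm on a sphere** -/
theorem noc [TopologicalSpace.SeparableSpace E] (hst : Stable E) {σ : E → ℝ} (hσ : σ ∈ KG wn E)
    {r : ℝ} (hr0 : 0 < r) {e : E} (he : ‖e‖ = 1) : ∃ v : E, ‖v‖ = r ∧ σ v ≠ r := by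
  by_contra hcon
  push Not at hcon
  have hr : ∀ v, r ≤ ‖v‖ → σ v = ‖v‖ := by
    intro v hv
    have hv0 : 0 < ‖v‖ := by linarith
    refine le_antisymm ?_ (KG_ge hσ v)
    have h1 : ‖(r / ‖v‖) • v‖ = r := by
      rw [norm_smul, Real.norm_eq_abs, abs_of_pos (by positivity)]
      field_simp
    have h2 := (abs_le.1 (KG_lip hσ v ((r / ‖v‖) • v))).2
    rw [hcon _ h1] at h2
    have h3 : v - (r / ‖v‖) • v = (1 - r / ‖v‖) • v := by module
    have h4 : r / ‖v‖ ≤ 1 := (div_le_one hv0).2 hv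
    rw [h3, norm_smul, Real.norm_eq_abs, abs_of_nonneg (by linarith), sub_mul, one_mul,
      div_mul_cancel₀ _ hv0.ne'] at h2
    linarith
  obtain ⟨y, hy, hlim⟩ := KG_seq hσ
  obtain ⟨J', hJ'⟩ := exists_nat_gt (2 * (2 * r + 1))
  have hε₀ : 0 < min r 1 := lt_min hr0 one_pos
  obtain ⟨x, z, k, hk, hz, hx, hxb, hA, hB⟩ := noc_seq hlim hr0 hr (J' + 1) he hε₀ (min_le_left _ _)
  have hxb1 : ∀ n, ‖x n‖ ≤ 2 * r + 1 := fun n => (hxb n).2.trans (by
    have := min_le_right r 1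
    linarith)
  set G : ℕ → ℕ → ℝ := fun j n => ((j : ℝ) + 1) * σ (((j : ℝ) + 1)⁻¹ • x n) with hG
  have hG1 : ∀ (j n : ℕ), Tendsto (fun m => ‖x n + ((j : ℝ) + 1) • z m‖) atTop (𝓝 (G j n)) := by
    intro j n
    have hj : (0 : ℝ) < (j : ℝ) + 1 := by positivity
    refine (((hlim (((j : ℝ) + 1)⁻¹ • x n)).comp hk.tendsto_atTop).const_mul
      ((j : ℝ) + 1)).congr fun m => ?_
    have h5 : x n + ((j : ℝ) + 1) • z m = ((j : ℝ) + 1) • (((j : ℝ) + 1)⁻¹ • x n + y (k m)) := by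
      rw [smul_add, smul_smul, mul_inv_cancel₀ hj.ne', one_smul, hz]
    rw [h5, norm_smul, Real.norm_eq_abs, abs_of_pos hj]
    rfl
  have hH1 : ∀ (j : ℕ), j + 1 < J' + 1 → ∀ (m : ℕ), ∃ H : ℝ,
      Tendsto (fun n => ‖x n + ((j : ℝ) + 1) • z m‖) atTop (𝓝 H) ∧
      |H - G (j + 1) m| ≤ 2 * (min r 1 * (1 / 2) ^ (m + 1)) := by
    intro j hj m
    set f : ℕ → ℝ := fun d => ‖x (m + 1 + d) + ((j : ℝ) + 1) • z m‖ with hf
    have h1 : ∀ d, dist (f d) (f (d + 1)) ≤ (min r 1 * (1 / 2) ^ (m + 2)) * (1 / 2) ^ d := by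
      intro d
      have h2 := hB m (m + 1 + d) (j + 1) (by omega) hj
      rw [dist_comm, Real.dist_eq]
      push_cast at h2
      refine h2.trans (le_of_eq ?_)
      unfold ee
      have h3 : m + 1 + d + 1 = m + 2 + d := by omega
      rw [mul_assoc, ← pow_add, h3]
    obtain ⟨H, hH⟩ := cauchySeq_tendsto_of_complete
      (cauchySeq_of_le_geometric (1 / 2) _ (by norm_num) h1)
    refine ⟨H, ?_, ?_⟩
    · have h3 : Tendsto (fun d => ‖x (d + (m + 1)) + ((j : ℝ) + 1) • z m‖) atTop (𝓝 H) := by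
        refine hH.congr fun d => ?_
        rw [hf]
        simp only
        rw [add_comm d (m + 1)]
      exact (tendsto_add_atTop_iff_nat (m + 1)).1 h3
    · have h3 := dist_le_of_le_geometric_of_tendsto₀ (1 / 2) _ (by norm_num) h1 hH
      rw [Real.dist_eq] at h3
      have h4 := hA m (j + 1) hj
      have h5 : x m + (((j + 1 : ℕ) : ℝ) + 1) • z m = x (m + 1) + ((j : ℝ) + 1) • z m := by
        rw [hx]
        push_cast
        module
      rw [h5] at h4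
      have h6 : f 0 = ‖x (m + 1) + ((j : ℝ) + 1) • z m‖ := rfl
      have h7 : G (j + 1) m = (((j + 1 : ℕ) : ℝ) + 1) * σ ((((j + 1 : ℕ) : ℝ) + 1)⁻¹ • x m) := rfl
      rw [← h6, ← h7] at h4
      have h8 : min r 1 * (1 / 2) ^ (m + 2) / (1 - 1 / 2) = min r 1 * (1 / 2) ^ (m + 1) := by
        rw [pow_succ (1 / 2 : ℝ) (m + 1)]
        ring
      rw [h8] at h3
      unfold ee at h4
      rw [abs_le] at h3 h4 ⊢
      constructor <;> linarith [h3.1, h3.2, h4.1, h4.2]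
  -- a subsequence
  have hGb : ∀ (j n : ℕ), G j n ∈ Icc (0 : ℝ) ((j : ℝ) + 1 + (2 * r + 1)) := by
    intro j n
    have hj : (0 : ℝ) < (j : ℝ) + 1 := by positivity
    refine ⟨mul_nonneg hj.le (KG_nonneg hσ _), ?_⟩
    have h1 := KG_le hσ (((j : ℝ) + 1)⁻¹ • x n)
    rw [norm_smul, norm_inv, Real.norm_eq_abs, abs_of_pos hj] at h1
    have h2 := mul_le_mul_of_nonneg_left h1 hj.le
    rw [mul_add, mul_inv_cancel_left₀ hj.ne', mul_one] at h2
    have h3 := hxb1 n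
    show ((j : ℝ) + 1) * σ (((j : ℝ) + 1)⁻¹ • x n) ≤ _
    linarith
  have hcpt : IsCompact (Set.pi Set.univ fun j : ℕ => Icc (0 : ℝ) ((j : ℝ) + 1 + (2 * r + 1))) :=
    isCompact_univ_pi fun j => isCompact_Icc
  obtain ⟨a, -, φ, hφ, hl⟩ := hcpt.tendsto_subseq (x := fun n j => G j n) (fun n j _ => hGb j n)
  have ha : ∀ (j : ℕ), Tendsto (fun n => G j (φ n)) atTop (𝓝 (a j)) := tendsto_pi_nhds.1 hl
  have hstep : ∀ (j : ℕ), j + 1 < J' + 1 → a j = a (j + 1) := by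
    intro j hj
    choose H hH1 hH2 using hH1 j hj
    have hHφ : Tendsto (fun m => H (φ m)) atTop (𝓝 (a (j + 1))) := by
      have h1 : Tendsto (fun m => H (φ m) - G (j + 1) (φ m)) atTop (𝓝 0) := by
        have h2 : Tendsto (fun m : ℕ => 2 * (min r 1 * (1 / 2 : ℝ) ^ (m + 1))) atTop (𝓝 0) := by
          have h3 : Tendsto (fun m : ℕ => (1 / 2 : ℝ) ^ (m + 1)) atTop (𝓝 0) :=
            (tendsto_add_atTop_iff_nat 1).2
              (tendsto_pow_atTop_nhds_zero_of_lt_one (by norm_num) (by norm_num))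
          simpa using (h3.const_mul (min r 1)).const_mul 2
        exact squeeze_zero_norm (fun m => hH2 (φ m)) (h2.comp hφ.tendsto_atTop)
      have := h1.add (ha (j + 1))
      simpa using this
    have hj : (0 : ℝ) < (j : ℝ) + 1 := by positivity
    refine hst (fun n => x (φ n)) (fun m => ((j : ℝ) + 1) • z (φ m)) (2 * r + 1 + ((j : ℝ) + 1))
      (fun n => ?_) (fun m => ?_) (fun n => G j (φ n)) (fun m => H (φ m)) (a j) (a (j + 1))
      (fun n => ?_) (ha j) (fun m => ?_) hHφ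
    · have := hxb1 (φ n)
      linarith
    · rw [norm_smul, hz, hy, mul_one, Real.norm_eq_abs, abs_of_pos hj]
      linarith
    · exact (hG1 j (φ n)).comp hφ.tendsto_atTop
    · exact (hH1 (φ m)).comp hφ.tendsto_atTop
  have hconst : ∀ (j : ℕ), j < J' + 1 → a 0 = a j := by
    intro j
    induction j with
    | zero => intro _; rfl
    | succ j ih =>
      intro hj
      rw [ih (by omega), hstep j hj]
  have h0 : a 0 ≤ 2 * r + 1 := by
    refine le_of_tendsto' (ha 0) fun n => ?_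
    show (((0 : ℕ) : ℝ) + 1) * σ ((((0 : ℕ) : ℝ) + 1)⁻¹ • x (φ n)) ≤ _
    rw [Nat.cast_zero, zero_add, inv_one, one_smul, one_mul, hr _ (hxb _).1]
    exact hxb1 _
  have h1 : (J' : ℝ) + 1 - (2 * r + 1) ≤ a J' := by
    refine ge_of_tendsto' (ha J') fun n => ?_
    have hj : (0 : ℝ) < (J' : ℝ) + 1 := by positivity
    have h2 := (abs_le.1 (KG_lip hσ (((J' : ℝ) + 1)⁻¹ • x (φ n)) 0)).1
    rw [KG_zero hσ, sub_zero, norm_smul, norm_inv, Real.norm_eq_abs, abs_of_pos hj] at h2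
    have h3 : 1 - ((J' : ℝ) + 1)⁻¹ * ‖x (φ n)‖ ≤ σ (((J' : ℝ) + 1)⁻¹ • x (φ n)) := by linarith
    have h4 := mul_le_mul_of_nonneg_left h3 hj.le
    rw [mul_sub, mul_one, mul_inv_cancel_left₀ hj.ne'] at h4
    have h5 := hxb1 (φ n)
    show _ ≤ ((J' : ℝ) + 1) * σ (((J' : ℝ) + 1)⁻¹ • x (φ n))
    linarith
  rw [← hconst J' (by omega)] at h1
  linarith

end

end Pool.Agent.V5helper39.BG
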