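import Pool.Agent.V5helper39.BG.Bas

set_option autoImplicit false

/-! # Sequences of Lipschitz functions, and types of differences in stable spaces -/

namespace Pool.Agent.V5helper39.BG

open Filter Topology Set TopologicalSpace
open Pool.Agent.V5helper39.BM

section

variable {E : Type} [NormedAddCommGroup E] [NormedSpace ℝ E]

/-- convergent subsequences of bounded sequences of Lipschitz functions -/
lemma exists_lim_sub [SeparableSpace E] (f : ℕ → E → ℝ) (C : E → ℝ) (hb : ∀ n x, |f n x| ≤ C x)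
    (hl : ∀ n x x', |f n x - f n x'| ≤ ‖x - x'‖) : ∃ (ψ : ℕ → ℕ) (τ : E → ℝ), StrictMono ψ ∧
      ∀ x, Tendsto (fun n => f (ψ n) x) atTop (𝓝 (τ x)) := by
  obtain ⟨D, hD⟩ := exists_dense_seq E
  have hcpt : IsCompact (Set.pi Set.univ fun k : ℕ => Set.Icc (-C (D k)) (C (D k))) :=
    isCompact_univ_pi fun k => isCompact_Icc
  obtain ⟨l, -, ψ, hψ, hl1⟩ := hcpt.tendsto_subseq (x := fun n k => f n (D k)) (fun n k _ =>
    abs_le.1 (hb n (D k)))
  have hl' : ∀ k, Tendsto (fun n => f (ψ n) (D k)) atTop (𝓝 (l k)) := tendsto_pi_nhds.1 hl1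
  have hex : ∀ x : E, ∃ t : ℝ, Tendsto (fun n => f (ψ n) x) atTop (𝓝 t) := by
    intro x
    refine cauchySeq_tendsto_of_complete (Metric.cauchySeq_iff'.2 fun ε hε => ?_)
    obtain ⟨_, ⟨k, rfl⟩, hk⟩ := Metric.mem_closure_iff.1 (hD x) (ε / 3) (by positivity)
    rw [dist_eq_norm] at hk
    obtain ⟨N, hN⟩ := Metric.cauchySeq_iff'.1 (hl' k).cauchySeq (ε / 3) (by positivity)
    refine ⟨N, fun n hn => ?_⟩
    have h1 := hN n hn
    rw [Real.dist_eq] at h1 ⊢
    have h3 := abs_le.1 (hl (ψ n) x (D k))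
    have h4 := abs_le.1 (hl (ψ N) x (D k))
    rw [abs_lt] at h1 ⊢
    constructor <;> linarith [h3.1, h3.2, h4.1, h4.2, h1.1, h1.2]
  choose τ hτ using hex
  exact ⟨ψ, τ, hψ, hτ⟩

/-- there are types which dominate the norm -/
theorem WG_nonempty [SeparableSpace E] (hinf : ¬ FiniteDimensional ℝ E) (hst : Stable E) :
    (WG False E).Nonempty := by
  obtain ⟨R, f, hR, hf, hf1⟩ := exists_seq_norm_le_one_le_norm_sub (𝕜 := ℝ) hinf
  have hf1' : ∀ m n, m ≠ n → 1 ≤ ‖f m - f n‖ := fun m n h => hf1 h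
  -- the type of a subsequence
  obtain ⟨ψ, ρ, hψ, hρ⟩ := exists_lim_sub (fun n x => ‖x + f n‖) (fun x => ‖x‖ + R)
    (fun n x => by
      rw [abs_norm]
      exact (norm_add_le _ _).trans (by linarith [hf n]))
    (fun n x x' => by
      have := abs_norm_sub_norm_le (x + f n) (x' + f n)
      rwa [add_sub_add_right_eq_sub] at this)
  have hρl : ∀ x x', |ρ x - ρ x'| ≤ ‖x - x'‖ := by
    intro x x'
    refine le_of_tendsto' (((hρ x).sub (hρ x')).abs) fun n => ?_
    have h1 := abs_norm_sub_norm_le (x + f (ψ n)) (x' + f (ψ n))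
    rwa [add_sub_add_right_eq_sub] at h1
  have hρb : ∀ x, |ρ x| ≤ ‖x‖ + R := by
    intro x
    refine le_of_tendsto' (hρ x).abs fun n => ?_
    rw [abs_norm]
    exact (norm_add_le _ _).trans (by linarith [hf (ψ n)])
  obtain ⟨χ, σ, hχ, hσ⟩ := exists_lim_sub (fun n v => ρ (-v - f (ψ n))) (fun v => ‖v‖ + R + R)
    (fun n v => by
      refine (hρb _).trans ?_
      have h1 := norm_sub_le (-v) (f (ψ n))
      rw [norm_neg] at h1
      linarith [hf (ψ n)])
    (fun n x x' => by
      refine (hρl _ _).trans (le_of_eq ?_)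
      rw [← norm_neg]
      congr 1
      abel)
  have hσl : ∀ x x', |σ x - σ x'| ≤ ‖x - x'‖ := by
    intro x x'
    refine le_of_tendsto' (((hσ x).sub (hσ x')).abs) fun n => ?_
    refine (hρl _ _).trans (le_of_eq ?_)
    rw [← norm_neg]
    congr 1
    abel
  set x : ℕ → E := fun n => f (ψ (χ n)) with hx
  have hxb : ∀ n, ‖x n‖ ≤ R := fun n => hf _
  have hx1 : ∀ m n, m ≠ n → 1 ≤ ‖x m - x n‖ := fun m n h =>
    hf1' _ _ fun h' => h (hχ.injective (hψ.injective h'))
  have hρ' : ∀ v, Tendsto (fun n => ‖v + x n‖) atTop (𝓝 (ρ v)) := fun v =>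
    (hρ v).comp hχ.tendsto_atTop
  have hσ' : ∀ v, Tendsto (fun n => ρ (-v - x n)) atTop (𝓝 (σ v)) := hσ
  -- inner limits
  have hin : ∀ v n, Tendsto (fun m => ‖v + x n - x m‖) atTop (𝓝 (ρ (-v - x n))) := by
    intro v n
    refine (hρ' (-v - x n)).congr fun m => ?_
    rw [← norm_neg]
    congr 1
    abel
  -- symmetry
  have hsym : ∀ v, σ v = σ (-v) := by
    intro v
    refine hst (fun n => v + x n) (fun m => -x m) (‖v‖ + R) (fun n => ?_) (fun m => ?_)
      (fun n => ρ (-v - x n)) (fun m => ρ (v - x m)) (σ v) (σ (-v)) (fun n => ?_) (hσ' v)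
      (fun m => ?_) ?_
    · exact (norm_add_le _ _).trans (by linarith [hxb n])
    · rw [norm_neg]
      linarith [hxb m, norm_nonneg v]
    · refine (hin v n).congr fun m => ?_
      rw [sub_eq_add_neg]
    · refine (hρ' (v - x m)).congr fun n => ?_
      congr 1
      abel
    · have := hσ' (-v)
      simpa only [neg_neg] using this
  -- normalisation
  have hc1 : ∀ n, 1 ≤ ρ (-x n) := by
    intro n
    refine ge_of_tendsto (hρ' (-x n)) ?_
    filter_upwards [eventually_gt_atTop n] with m hm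
    have := hx1 m n (by omega)
    rwa [show -x n + x m = x m - x n by abel]
  have hcL : Tendsto (fun n => ρ (-x n)) atTop (𝓝 (σ 0)) := by
    have := hσ' 0
    simpa using this
  have hL1 : 1 ≤ σ 0 := ge_of_tendsto' hcL hc1
  have hL0 : 0 < σ 0 := by linarith
  set τ : E → ℝ := fun v => σ (σ 0 • v) / σ 0 with hτ
  have hmem : τ ∈ closure (range fun (y : {y : E // ‖y‖ = 1}) (v : E) => ‖v + y.1‖) := by
    rw [← closure_closure]
    refine mem_closure_of_tendsto
      (f := fun (n : ℕ) (v : E) => ρ (-(ρ (-x n) • v) - x n) / ρ (-x n)) (b := atTop) ?_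
      (Eventually.of_forall fun n => ?_)
    · refine tendsto_pi_nhds.2 fun v => ?_
      refine Tendsto.div ?_ hcL hL0.ne'
      have h1 : Tendsto (fun n => ρ (-(ρ (-x n) • v) - x n) - ρ (-(σ 0 • v) - x n)) atTop (𝓝 0) := by
        have h2 : Tendsto (fun n => |ρ (-x n) - σ 0| * ‖v‖) atTop (𝓝 0) := by
          have h3 := ((hcL.sub_const (σ 0)).abs).mul_const ‖v‖
          simpa using h3
        refine squeeze_zero_norm (fun n => ?_) h2
        rw [Real.norm_eq_abs]
        refine (hρl _ _).trans (le_of_eq ?_)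
        rw [← Real.norm_eq_abs, ← norm_smul, ← norm_neg]
        congr 1
        module
      have := h1.add (hσ' (σ 0 • v))
      simpa using this
    · have hpos : 0 < ρ (-x n) := by linarith [hc1 n]
      refine mem_closure_of_tendsto
        (f := fun (m : ℕ) (v : E) => ‖v + ‖x n - x m‖⁻¹ • (x n - x m)‖) (b := atTop) ?_ ?_
      · refine tendsto_pi_nhds.2 fun v => ?_
        have hn : Tendsto (fun m => ‖x n - x m‖) atTop (𝓝 (ρ (-x n))) := by
          have := hin 0 n
          simpa using this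
        have h1 : Tendsto (fun m => ‖ρ (-x n) • v + x n - x m‖ / ‖x n - x m‖) atTop
            (𝓝 (ρ (-(ρ (-x n) • v) - x n) / ρ (-x n))) :=
          (hin (ρ (-x n) • v) n).div hn hpos.ne'
        have h2 : Tendsto (fun m => ‖v + ‖x n - x m‖⁻¹ • (x n - x m)‖ -
            ‖ρ (-x n) • v + x n - x m‖ / ‖x n - x m‖) atTop (𝓝 0) := by
          have h3 : Tendsto (fun m => |‖x n - x m‖ - ρ (-x n)| * ‖v‖ / ‖x n - x m‖) atTop (𝓝 0) := by
            have h4 := (((hn.sub_const (ρ (-x n))).abs).mul_const ‖v‖).div hn hpos.ne'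
            rw [sub_self, abs_zero, zero_mul, zero_div] at h4
            exact h4
          refine squeeze_zero_norm' ?_ h3
          filter_upwards [eventually_gt_atTop n] with m hm
          have h5 : 1 ≤ ‖x n - x m‖ := hx1 n m (by omega)
          have h6 : 0 < ‖x n - x m‖ := by linarith
          have h7 : ‖v + ‖x n - x m‖⁻¹ • (x n - x m)‖ =
              ‖‖x n - x m‖ • v + (x n - x m)‖ / ‖x n - x m‖ := by
            rw [eq_div_iff h6.ne']
            nth_rewrite 2 [← norm_norm (x n - x m)]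
            rw [mul_comm, ← norm_smul, smul_add, smul_smul, mul_inv_cancel₀ h6.ne', one_smul]
          rw [h7, ← sub_div, Real.norm_eq_abs, abs_div, abs_norm]
          gcongr
          refine (abs_norm_sub_norm_le _ _).trans (le_of_eq ?_)
          rw [← Real.norm_eq_abs, ← norm_smul]
          congr 1
          module
        have := h2.add h1
        simpa using this
      · filter_upwards [eventually_gt_atTop n] with m hm
        have h5 : 1 ≤ ‖x n - x m‖ := hx1 n m (by omega)
        refine ⟨⟨‖x n - x m‖⁻¹ • (x n - x m), ?_⟩, rfl⟩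
        rw [norm_smul, norm_inv, norm_norm, inv_mul_cancel₀ (by linarith)]
  obtain ⟨y, hy⟩ := seq_of_closure _ (fun y x x' => by
    have := abs_norm_sub_norm_le (x + y.1) (x' + y.1)
    rwa [add_sub_add_right_eq_sub] at this) hmem
  refine ⟨τ, fun n => (y n).1, fun n => (y n).2, fun h => h.elim, hy, fun v => ?_⟩
  have h1 := (hy v).add (hy (-v))
  have h2 : τ (-v) = τ v := by
    rw [hτ]
    simp only
    rw [smul_neg, ← hsym]
  rw [h2] at h1
  have h3 : 2 * ‖v‖ ≤ τ v + τ v := by
    refine ge_of_tendsto' h1 fun n => ?_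
    have h5 := norm_sub_le (v + (y n).1) (-v + (y n).1)
    have h6 : v + (y n).1 - (-v + (y n).1) = (2 : ℝ) • v := by module
    rw [h6, norm_smul] at h5
    simpa using h5
  linarith

end

end Pool.Agent.V5helper39.BG
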