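import Pool.Agent.V5helper39.BG.Grw
import Pool.Agent.V5helper39.BG.Sq
import Pool.Agent.V5helper21.BM.STA

set_option autoImplicit false

/-! # The orbit of every type comes close to the invariant type -/

namespace Pool.Agent.V5helper39.BG

open Filter Topology Set TopologicalSpace
open Pool.Agent.V5helper39.BM

section

variable {E : Type} [NormedAddCommGroup E] [NormedSpace ℝ E]

/-- the orbit of a type -/
def orb (τ : E → ℝ) : Set (E → ℝ) := closure (range fun (T : E ≃ₗᵢ[ℝ] E) (v : E) => τ (T v))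

theorem orbit_closure [SeparableSpace E] (hst : Stable E) (hAT : Pool.Agent.N314.OP.AT E) {e : E}
    (he : ‖e‖ = 1) {y : ℕ → E} {F : ℝ → ℝ} (hy : ∀ n, ‖y n‖ = 1)
    (hF : ∀ x : E, Tendsto (fun n => ‖x + y n‖) atTop (𝓝 (F ‖x‖))) {τ : E → ℝ}
    (hτ : τ ∈ UT E) : (fun x : E => F ‖x‖) ∈ orb τ := by
  have hbh := bh_of_rad hst he hy hF
  have ne : ∀ a : ℝ, 0 ≤ a → ‖a • e‖ = a := fun a ha => by
    rw [norm_smul, he, mul_one, Real.norm_eq_abs, abs_of_nonneg ha]
  have hsub : orb τ ⊆ UT E := by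
    refine closure_minimal ?_ isClosed_closure
    rintro _ ⟨T, rfl⟩
    exact UT_comp hτ T
  have hcl : IsClosed (orb τ) := isClosed_closure
  have hcpt : IsCompact (orb τ) := UT_compact.of_isClosed_subset hcl hsub
  have hinv : ∀ σ ∈ orb τ, ∀ T : E ≃ₗᵢ[ℝ] E, (fun v => σ (T v)) ∈ orb τ := by
    intro σ hσ T
    refine map_mem_closure (f := fun (σ : E → ℝ) (v : E) => σ (T v)) (by fun_prop) hσ ?_
    rintro _ ⟨S, rfl⟩
    exact ⟨T.trans S, rfl⟩
  have hne : (orb τ).Nonempty := ⟨_, subset_closure ⟨LinearIsometryEquiv.refl ℝ E, rfl⟩⟩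
  obtain ⟨m, hm⟩ := exists_mean hAT (orb τ) hsub hcl hne ⟨e, he⟩ hinv
    (ksepL (Pool.Agent.V5helper21.BM.t_STA E hst))
  -- the values at `t y n`
  have hlim : ∀ σ ∈ orb τ, ∀ t : ℝ, 0 ≤ t → Tendsto (fun n => σ (t • y n)) atTop (𝓝 (F t)) := by
    intro σ hσ t ht
    rcases ht.eq_or_lt with h0 | h0
    · rw [← h0, hbh.zero]
      simp only [zero_smul, UT_zero (hsub hσ)]
      exact tendsto_const_nhds
    obtain ⟨u, hu, hul⟩ := UT_seq (hsub hσ)
    obtain ⟨L, h1, h2⟩ := t_COM E hst σ (fun x => F ‖x‖) u y hu hy hul hF 0 t h0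
    have h3 : Tendsto (fun n => t * F ‖t⁻¹ • (0 + u n)‖) atTop (𝓝 (t * F (1 / t))) := by
      refine tendsto_const_nhds.congr fun n => ?_
      rw [zero_add, norm_smul, hu, mul_one, norm_inv, Real.norm_eq_abs, abs_of_pos h0, one_div]
    have h4 : L = F t := by
      rw [tendsto_nhds_unique h1 h3]
      have h5 := hbh.sym (r := 1) (s := t) zero_le_one ht
      rw [NN_pos _ h0.ne', NN_one] at h5
      exact h5
    rw [h4] at h2
    refine h2.congr fun n => ?_
    rw [zero_add]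
  have hFge : ∀ r, 0 ≤ r → 0 ≤ F r := fun r hr => hr.trans (hbh.ge r hr)
  -- the mean
  have hmean : ∀ (t : ℝ) (Θ : LF), 0 ≤ t → m t Θ = Θ.1 (F t) := by
    intro t Θ ht
    refine eq_of_small fun δ hδ => ?_
    obtain ⟨N, w, σ, hw, hw1, hσ, h⟩ := hm (δ / (1 + t)) (by positivity)
    have h1 : Tendsto (fun n => ∑ i, w i * Θ.1 (σ i (t • y n))) atTop (𝓝 (Θ.1 (F t))) := by
      rw [← wsum_const hw1 (Θ.1 (F t))]
      refine tendsto_finsetSum _ fun i _ => ?_
      exact (((LF_cont Θ).tendsto _).comp (hlim (σ i) (hσ i) t ht)).const_mul (w i)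
    refine le_of_tendsto' ((h1.const_sub (m t Θ)).abs) fun n => ?_
    have h2 := h (t • y n) Θ
    rw [norm_smul, hy, mul_one, Real.norm_eq_abs, abs_of_nonneg ht,
      div_mul_cancel₀ _ (by positivity)] at h2
    exact h2
  -- approximation on finite sets
  have hfin : ∀ (V : Finset E) (ε : ℝ), 0 < ε → ∃ σ ∈ orb τ, ∀ v ∈ V, |σ v - F ‖v‖| ≤ ε := by
    intro V ε hε
    set B : ℝ := ∑ v ∈ V, (1 + ‖v‖) with hB
    have hB0 : 0 ≤ B := Finset.sum_nonneg fun v _ => by positivity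
    obtain ⟨N, w, σ, hw, hw1, hσ, h⟩ := hm (ε / (B + 1)) (by positivity)
    have h1 : ∑ i, w i * (∑ v ∈ V, |σ i v - F ‖v‖|) ≤ ε := by
      have h2 : ∑ i, w i * (∑ v ∈ V, |σ i v - F ‖v‖|) =
          ∑ v ∈ V, ∑ i, w i * |σ i v - F ‖v‖| := by
        simp only [Finset.mul_sum]
        rw [Finset.sum_comm]
      rw [h2]
      have h3 : ∀ v ∈ V, ∑ i, w i * |σ i v - F ‖v‖| ≤ ε / (B + 1) * (1 + ‖v‖) := by
        intro v _
        let Θ : LF := ⟨fun x => |x - F ‖v‖| - F ‖v‖, by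
          simp only
          rw [zero_sub, abs_neg, abs_of_nonneg (hFge _ (norm_nonneg _)), sub_self], fun a b => by
          simp only
          rw [sub_sub_sub_cancel_right]
          refine (abs_abs_sub_abs_le_abs_sub _ _).trans (le_of_eq ?_)
          rw [sub_sub_sub_cancel_right]⟩
        have h4 := (abs_le.1 (h v Θ)).1
        rw [hmean _ Θ (norm_nonneg v)] at h4
        have h5 : Θ.1 (F ‖v‖) = -F ‖v‖ := by
          show |F ‖v‖ - F ‖v‖| - F ‖v‖ = _
          rw [sub_self, abs_zero, zero_sub]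
        have h6 : ∑ i, w i * Θ.1 (σ i v) = ∑ i, w i * |σ i v - F ‖v‖| - F ‖v‖ := by
          have h7 : ∀ i, w i * Θ.1 (σ i v) = w i * |σ i v - F ‖v‖| - w i * F ‖v‖ := by
            intro i
            show w i * (|σ i v - F ‖v‖| - F ‖v‖) = _
            rw [mul_sub]
          simp only [h7, Finset.sum_sub_distrib]
          rw [wsum_const hw1]
        rw [h5, h6] at h4
        linarith
      refine (Finset.sum_le_sum h3).trans ?_
      rw [← Finset.mul_sum, ← hB, div_mul_eq_mul_div, div_le_iff₀ (by positivity)]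
      nlinarith
    obtain ⟨i, hi⟩ := exists_le_avg (F := fun i => ∑ v ∈ V, |σ i v - F ‖v‖|) hw hw1
    refine ⟨σ i, hσ i, fun v hv => ?_⟩
    have h7 : |σ i v - F ‖v‖| ≤ ∑ v ∈ V, |σ i v - F ‖v‖| :=
      Finset.single_le_sum (f := fun v => |σ i v - F ‖v‖|) (fun v _ => abs_nonneg _) hv
    linarith
  -- compactness
  obtain ⟨σ, hσ, hσ'⟩ := hcpt.inter_iInter_nonempty
    (fun z : E × ℕ => {σ : E → ℝ | |σ z.1 - F ‖z.1‖| ≤ 1 / ((z.2 : ℝ) + 1)})
    (fun z => isClosed_le (by fun_prop) continuous_const) (fun u => by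
      classical
      obtain ⟨σ, hσ, h⟩ := hfin (u.image fun z => z.1) (1 / (((u.sup fun z => z.2 : ℕ) : ℝ) + 1))
        (by positivity)
      refine ⟨σ, hσ, ?_⟩
      simp only [Set.mem_iInter]
      intro z hz
      refine (h z.1 (Finset.mem_image_of_mem _ hz)).trans ?_
      have h1 : z.2 ≤ u.sup fun z => z.2 := Finset.le_sup (f := fun z => z.2) hz
      have h2 : (z.2 : ℝ) ≤ ((u.sup fun z => z.2 : ℕ) : ℝ) := by exact_mod_cast h1
      gcongr)
  simp only [Set.mem_iInter] at hσ'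
  have h8 : (fun x : E => F ‖x‖) = σ := by
    funext v
    refine (eq_of_small fun δ hδ => ?_).symm
    obtain ⟨k, hk⟩ := exists_nat_one_div_lt hδ
    have h9 : |σ v - F ‖v‖| ≤ 1 / ((k : ℝ) + 1) := hσ' (v, k)
    exact h9.trans hk.le
  rw [h8]
  exact hσ

/-- isometries which bring a type close to the invariant type -/
theorem exists_isometries [SeparableSpace E] (hst : Stable E) (hAT : Pool.Agent.N314.OP.AT E)
    {e : E} (he : ‖e‖ = 1) {y : ℕ → E} {F : ℝ → ℝ} (hy : ∀ n, ‖y n‖ = 1)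
    (hF : ∀ x : E, Tendsto (fun n => ‖x + y n‖) atTop (𝓝 (F ‖x‖))) {τ : E → ℝ}
    (hτ : τ ∈ UT E) :
    ∃ T : ℕ → E ≃ₗᵢ[ℝ] E, ∀ x, Tendsto (fun k => τ (T k x)) atTop (𝓝 (F ‖x‖)) := by
  refine seq_of_closure (fun (T : E ≃ₗᵢ[ℝ] E) (v : E) => τ (T v)) (fun T x x' => ?_)
    (orbit_closure hst hAT he hy hF hτ)
  refine (UT_lip hτ _ _).trans (le_of_eq ?_)
  rw [← map_sub, T.norm_map]

/-- existence of the invariant type -/
theorem exists_rad [SeparableSpace E] {wn : Prop} (hst : Stable E)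
    (hAT : Pool.Agent.N314.OP.AT E) (hW : wn → Pool.Agent.N314.OP.WSC E)
    (hne : (WG wn E).Nonempty) :
    ∃ (y : ℕ → E) (F : ℝ → ℝ), (∀ n, ‖y n‖ = 1) ∧
      (wn → ∀ φ : StrongDual ℝ E, Tendsto (fun n => φ (y n)) atTop (𝓝 0)) ∧
      ∀ x, Tendsto (fun n => ‖x + y n‖) atTop (𝓝 (F ‖x‖)) := by
  have he : ∃ e : E, ‖e‖ = 1 := by
    obtain ⟨τ, y, hy, -⟩ := hne
    exact ⟨y 0, hy 0⟩
  obtain ⟨m, hm⟩ := exists_mean hAT (KG wn E) KG_sub_UT isClosed_closure
    (hne.mono subset_closure) he (fun τ hτ T => KG_comp hτ T)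
    (ksepL (Pool.Agent.V5helper21.BM.t_STA E hst))
  obtain ⟨e, he⟩ := he
  exact exists_inv hW hm he (strict_grow hst hm he)

end

end Pool.Agent.V5helper39.BG
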