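import Pool.Agent.V5helper39.BG.Lip

set_option autoImplicit false

/-! # Random walks with small steps -/

namespace Pool.Agent.V5helper39.BG

open Filter Topology Set
open Pool.Agent.V5helper39.BM

section

variable {wn : Prop} {E : Type} [NormedAddCommGroup E] [NormedSpace ℝ E]

/-- the expected values of a walk: `u n r` is the mean of the norm after `n` steps of size `s`,
starting at norm `r`; `g r` is the mean after one step -/
structure Walk (K : Set (E → ℝ)) (s : ℝ) (g : ℝ → ℝ) (u : ℕ → ℝ → ℝ) : Prop where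
  zero : ∀ x, u 0 x = x
  lip : ∀ n a b, |u n a - u n b| ≤ |a - b|
  step : ∀ (n : ℕ) (δ : ℝ), 0 < δ → ∃ (N : ℕ) (w : Fin N → ℝ) (τ : Fin N → E → ℝ),
    (∀ i, 0 ≤ w i) ∧ ∑ i, w i = 1 ∧ (∀ i, τ i ∈ K) ∧
    (∀ v : E, |u (n + 1) ‖v‖ - ∑ i, w i * u n (s * τ i (s⁻¹ • v))| ≤ δ * (s + ‖v‖)) ∧
    ∀ v : E, |g ‖v‖ - ∑ i, w i * (s * τ i (s⁻¹ • v))| ≤ δ * (s + ‖v‖)

/-- the identity -/
def idL : LF := ⟨fun x => x, rfl, fun _ _ => le_rfl⟩

lemma exists_next {K : Set (E → ℝ)} (hK : K ⊆ KG wn E) {m : ℝ → LF → ℝ} (hm : IsMean K m) {e : E}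
    (he : ‖e‖ = 1) {s : ℝ} (hs : 0 < s) (u : ℝ → ℝ) (hu : ∀ a b, |u a - u b| ≤ |a - b|) :
    ∃ u' : ℝ → ℝ, (∀ a b, |u' a - u' b| ≤ |a - b|) ∧ ∀ δ : ℝ, 0 < δ →
      ∃ (N : ℕ) (w : Fin N → ℝ) (τ : Fin N → E → ℝ), (∀ i, 0 ≤ w i) ∧ ∑ i, w i = 1 ∧
      (∀ i, τ i ∈ K) ∧ (∀ v : E, |u' ‖v‖ - ∑ i, w i * u (s * τ i (s⁻¹ • v))| ≤ δ * (s + ‖v‖)) ∧
      ∀ v : E, |s * m (‖v‖ / s) idL - ∑ i, w i * (s * τ i (s⁻¹ • v))| ≤ δ * (s + ‖v‖) := by
  let Θ : LF := ⟨fun x => (u (s * x) - u 0) / s, by simp, fun a b => by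
    have h1 : (u (s * a) - u 0) / s - (u (s * b) - u 0) / s = (u (s * a) - u (s * b)) / s := by ring
    rw [h1, abs_div, abs_of_pos hs, div_le_iff₀ hs]
    refine (hu _ _).trans ?_
    rw [← mul_sub, abs_mul, abs_of_pos hs, mul_comm]⟩
  have hΘ : ∀ x, u (s * x) = u 0 + s * Θ.1 x := by
    intro x
    show u (s * x) = u 0 + s * ((u (s * x) - u 0) / s)
    field_simp
    ring
  have happ : ∀ δ : ℝ, 0 < δ →
      ∃ (N : ℕ) (w : Fin N → ℝ) (τ : Fin N → E → ℝ), (∀ i, 0 ≤ w i) ∧ ∑ i, w i = 1 ∧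
      (∀ i, τ i ∈ K) ∧ (∀ v : E, |(u 0 + s * m (|‖v‖| / s) Θ) -
        ∑ i, w i * u (s * τ i (s⁻¹ • v))| ≤ δ * (s + ‖v‖)) ∧
      ∀ v : E, |s * m (‖v‖ / s) idL - ∑ i, w i * (s * τ i (s⁻¹ • v))| ≤ δ * (s + ‖v‖) := by
    intro δ hδ
    obtain ⟨N, w, τ, hw, hw1, hτ, h⟩ := hm δ hδ
    have hn : ∀ v : E, ‖s⁻¹ • v‖ = ‖v‖ / s := by
      intro v
      rw [norm_smul, norm_inv, Real.norm_eq_abs, abs_of_pos hs]
      field_simp
    refine ⟨N, w, τ, hw, hw1, hτ, fun v => ?_, fun v => ?_⟩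
    swap
    · have h1 := h (s⁻¹ • v) idL
      rw [hn] at h1
      have h2 : ∑ i, w i * (s * τ i (s⁻¹ • v)) = s * ∑ i, w i * idL.1 (τ i (s⁻¹ • v)) := by
        rw [Finset.mul_sum]
        refine Finset.sum_congr rfl fun i _ => ?_
        show w i * (s * τ i (s⁻¹ • v)) = s * (w i * τ i (s⁻¹ • v))
        ring
      rw [h2, ← mul_sub, abs_mul, abs_of_pos hs]
      refine (mul_le_mul_of_nonneg_left h1 hs.le).trans (le_of_eq ?_)
      field_simp
    have h1 := h (s⁻¹ • v) Θ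
    rw [hn, show ‖v‖ / s = |‖v‖| / s by rw [abs_norm]] at h1
    have h2 : ∑ i, w i * u (s * τ i (s⁻¹ • v)) =
        u 0 + s * ∑ i, w i * Θ.1 (τ i (s⁻¹ • v)) := by
      rw [Finset.mul_sum, ← wsum_const hw1 (u 0), ← Finset.sum_add_distrib]
      refine Finset.sum_congr rfl fun i _ => ?_
      rw [hΘ]
      ring
    rw [h2]
    have h3 : (u 0 + s * m (|‖v‖| / s) Θ) - (u 0 + s * ∑ i, w i * Θ.1 (τ i (s⁻¹ • v))) =
        s * (m (|‖v‖| / s) Θ - ∑ i, w i * Θ.1 (τ i (s⁻¹ • v))) := by ring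
    rw [h3, abs_mul, abs_of_pos hs]
    refine (mul_le_mul_of_nonneg_left h1 hs.le).trans (le_of_eq ?_)
    rw [abs_norm]
    field_simp
  refine ⟨fun r => u 0 + s * m (|r| / s) Θ, fun a b => ?_, fun δ hδ => ?_⟩
  · refine le_of_forall_pos_le_add fun η hη => ?_
    have hpos : 0 < 2 * s + |a| + |b| := by positivity
    obtain ⟨N, w, τ, hw, hw1, hτ, h, -⟩ := happ (η / (2 * s + |a| + |b|)) (by positivity)
    have na : ‖|a| • e‖ = |a| := by rw [norm_smul, he, mul_one, Real.norm_eq_abs, abs_abs]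
    have nb : ‖|b| • e‖ = |b| := by rw [norm_smul, he, mul_one, Real.norm_eq_abs, abs_abs]
    have h1 := h (|a| • e)
    have h2 := h (|b| • e)
    rw [na, abs_abs] at h1
    rw [nb, abs_abs] at h2
    have h3 : |∑ i, w i * u (s * τ i (s⁻¹ • (|a| • e))) -
        ∑ i, w i * u (s * τ i (s⁻¹ • (|b| • e)))| ≤ |a - b| := by
      rw [← Finset.sum_sub_distrib]
      refine (Finset.abs_sum_le_sum_abs _ _).trans ?_
      rw [← wsum_const hw1 (|a - b|)]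
      refine Finset.sum_le_sum fun i _ => ?_
      rw [← mul_sub, abs_mul, abs_of_nonneg (hw i)]
      refine mul_le_mul_of_nonneg_left ?_ (hw i)
      refine (hu _ _).trans ?_
      rw [← mul_sub, abs_mul, abs_of_pos hs]
      refine (mul_le_mul_of_nonneg_left (KG_lip (hK (hτ i)) _ _) hs.le).trans ?_
      rw [← smul_sub, ← sub_smul, norm_smul, norm_smul, he, mul_one, norm_inv, Real.norm_eq_abs,
        abs_of_pos hs, Real.norm_eq_abs, mul_inv_cancel_left₀ hs.ne']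
      exact abs_abs_sub_abs_le_abs_sub a b
    have h4 : η / (2 * s + |a| + |b|) * (s + |a|) + η / (2 * s + |a| + |b|) * (s + |b|) = η := by
      field_simp
      ring
    rw [abs_le] at h1 h2 h3 ⊢
    simp only
    constructor <;> linarith [h1.1, h1.2, h2.1, h2.2, h3.1, h3.2]
  · exact happ δ hδ

theorem exists_walk {K : Set (E → ℝ)} (hK : K ⊆ KG wn E) {m : ℝ → LF → ℝ} (hm : IsMean K m) {e : E}
    (he : ‖e‖ = 1) {s : ℝ} (hs : 0 < s) : ∃ u, Walk K s (fun r => s * m (r / s) idL) u := by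
  choose nx hnx1 hnx2 using fun (u : {u : ℝ → ℝ // ∀ a b, |u a - u b| ≤ |a - b|}) =>
    exists_next hK hm he hs u.1 u.2
  let U : ℕ → {u : ℝ → ℝ // ∀ a b, |u a - u b| ≤ |a - b|} := fun n =>
    Nat.rec ⟨fun x => x, fun a b => le_rfl⟩ (fun _ u => ⟨nx u, hnx1 u⟩) n
  refine ⟨fun n => (U n).1, fun x => rfl, fun n => (U n).2, fun n δ hδ => ?_⟩
  exact hnx2 (U n) δ hδ

lemma Walk.ge {K : Set (E → ℝ)} (hK : K ⊆ KG wn E) {s : ℝ} (hs : 0 < s) {g : ℝ → ℝ}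
    {u : ℕ → ℝ → ℝ} (h : Walk K s g u) {e : E} (he : ‖e‖ = 1) (n : ℕ) {r : ℝ} (hr : 0 ≤ r) : r ≤ u n r := by
  induction n generalizing r with
  | zero => rw [h.zero]
  | succ n ih =>
    refine le_of_forall_pos_le_add fun η hη => ?_
    have hpos : 0 < s + r := by linarith
    obtain ⟨N, w, τ, hw, hw1, hτ, h1, h1'⟩ := h.step n (η / (s + r)) (by positivity)
    have nr : ‖r • e‖ = r := by rw [norm_smul, he, mul_one, Real.norm_eq_abs, abs_of_nonneg hr]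
    have h2 := h1 (r • e)
    rw [nr, div_mul_cancel₀ _ hpos.ne'] at h2
    have h3 : r ≤ ∑ i, w i * u n (s * τ i (s⁻¹ • (r • e))) := by
      refine (wsum_const hw1 r).symm.le.trans (wsum_le hw fun i => ?_)
      have h4 := KG_ge (hK (hτ i)) (s⁻¹ • (r • e))
      rw [norm_smul, nr, norm_inv, Real.norm_eq_abs, abs_of_pos hs] at h4
      have h5 : r ≤ s * τ i (s⁻¹ • (r • e)) := by
        have := mul_le_mul_of_nonneg_left h4 hs.le
        rwa [mul_inv_cancel_left₀ hs.ne'] at this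
      exact h5.trans (ih (hr.trans h5))
    have := (abs_le.1 h2).1
    linarith

lemma Walk.at_zero {K : Set (E → ℝ)} (hK : K ⊆ KG wn E) {s : ℝ} (hs : 0 < s) {g : ℝ → ℝ}
    {u : ℕ → ℝ → ℝ} (h : Walk K s g u) (n : ℕ) : u (n + 1) 0 = u n s := by
  refine eq_of_small fun δ hδ => ?_
  obtain ⟨N, w, τ, hw, hw1, hτ, h1, -⟩ := h.step n (δ / s) (by positivity)
  have h2 := h1 0
  rw [norm_zero, add_zero, div_mul_cancel₀ _ hs.ne'] at h2
  have h3 : ∑ i, w i * u n (s * τ i (s⁻¹ • (0 : E))) = u n s := by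
    rw [← wsum_const hw1 (u n s)]
    refine Finset.sum_congr rfl fun i _ => ?_
    rw [smul_zero, KG_zero (hK (hτ i)), mul_one]
  rwa [h3] at h2

/-- growth -/
lemma Walk.grow {K : Set (E → ℝ)} (hK : K ⊆ KG wn E) {s : ℝ} (hs : 0 < s) {g : ℝ → ℝ}
    {u : ℕ → ℝ → ℝ} (h : Walk K s g u) {e : E} (he : ‖e‖ = 1) {κ : ℝ} (hκ : 0 < κ)
    (hκ2 : κ < 2) (hg : ∀ r, 0 ≤ r → r ≤ 2 → r + κ ≤ g r) (hg' : ∀ r, 0 ≤ r → r ≤ g r) (n : ℕ)
    {r : ℝ} (hr : 0 ≤ r) : (1 - κ / 2) ^ n * r + 2 * (1 - (1 - κ / 2) ^ n) ≤ u n r := by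
  have ha0 : 0 < 1 - κ / 2 := by linarith
  have ha1 : 1 - κ / 2 ≤ 1 := by linarith
  induction n generalizing r with
  | zero => rw [h.zero]; simp
  | succ n ih =>
    refine le_of_forall_pos_le_add fun η hη => ?_
    have hpos : 0 < s + r := by linarith
    obtain ⟨N, w, τ, hw, hw1, hτ, h1, h1'⟩ := h.step n (η / 2 / (s + r)) (by positivity)
    have nr : ‖r • e‖ = r := by rw [norm_smul, he, mul_one, Real.norm_eq_abs, abs_of_nonneg hr]
    have h2 := h1 (r • e)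
    have h2' := h1' (r • e)
    rw [nr, div_mul_cancel₀ _ hpos.ne'] at h2 h2'
    have h9 : 0 < (1 - κ / 2) ^ n := pow_pos ha0 n
    have h9' : (1 - κ / 2) ^ n ≤ 1 := pow_le_one₀ ha0.le ha1
    have h6 : (1 - κ / 2) * r + κ ≤ g r := by
      rcases le_total r 2 with h7 | h7
      · have h8 := hg r hr h7
        nlinarith
      · have h8 := hg' r hr
        nlinarith
    have h3 : (1 - κ / 2) ^ n * ∑ i, w i * (s * τ i (s⁻¹ • (r • e))) + 2 * (1 - (1 - κ / 2) ^ n) ≤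
        ∑ i, w i * u n (s * τ i (s⁻¹ • (r • e))) := by
      have e1 : (1 - κ / 2) ^ n * ∑ i, w i * (s * τ i (s⁻¹ • (r • e))) +
          2 * (1 - (1 - κ / 2) ^ n) = ∑ i, w i * ((1 - κ / 2) ^ n * (s * τ i (s⁻¹ • (r • e))) +
          2 * (1 - (1 - κ / 2) ^ n)) := by
        rw [Finset.mul_sum]
        refine (congrArg₂ (· + ·) rfl (wsum_const hw1 (2 * (1 - (1 - κ / 2) ^ n))).symm).trans ?_
        rw [← Finset.sum_add_distrib]
        refine Finset.sum_congr rfl fun i _ => ?_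
        ring
      rw [e1]
      refine wsum_le hw fun i => ?_
      have h4 := KG_nonneg (hK (hτ i)) (s⁻¹ • (r • e))
      exact ih (by positivity)
    have h10 := (abs_le.1 h2).1
    have h11 := (abs_le.1 h2').2
    have h12 : (1 - κ / 2) ^ n * (g r - η / 2) ≤
        (1 - κ / 2) ^ n * ∑ i, w i * (s * τ i (s⁻¹ • (r • e))) :=
      mul_le_mul_of_nonneg_left (by linarith) h9.le
    have h13 := mul_le_mul_of_nonneg_left h6 h9.le
    rw [pow_succ]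
    nlinarith

/-- the number of steps -/
lemma Walk.exists_time {K : Set (E → ℝ)} (hK : K ⊆ KG wn E) {s : ℝ} (hs : 0 < s) {g : ℝ → ℝ}
    {u : ℕ → ℝ → ℝ} (h : Walk K s g u) {e : E} (he : ‖e‖ = 1) {κ : ℝ} (hκ : 0 < κ)
    (hκ2 : κ < 2) (hg : ∀ r, 0 ≤ r → r ≤ 2 → r + κ ≤ g r) (hg' : ∀ r, 0 ≤ r → r ≤ g r) :
    ∃ n, 1 ≤ u n 0 ∧ u n 0 ≤ 1 + s := by
  classical
  have hex : ∃ n, 1 ≤ u n 0 := by
    obtain ⟨n, hn⟩ := exists_pow_lt_of_lt_one (show (0 : ℝ) < 1 / 2 by norm_num)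
      (show 1 - κ / 2 < 1 by linarith)
    refine ⟨n, ?_⟩
    have := h.grow hK hs he hκ hκ2 hg hg' n le_rfl
    rw [mul_zero, zero_add] at this
    linarith
  refine ⟨Nat.find hex, Nat.find_spec hex, ?_⟩
  have h0 : Nat.find hex ≠ 0 := by
    intro h0
    have := Nat.find_spec hex
    rw [h0, h.zero] at this
    linarith
  obtain ⟨k, hk⟩ := Nat.exists_eq_succ_of_ne_zero h0
  have h1 : ¬ 1 ≤ u k 0 := Nat.find_min hex (by omega)
  push Not at h1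
  rw [hk, Nat.succ_eq_add_one, h.at_zero hK hs]
  have h2 := (abs_le.1 (h.lip k s 0)).2
  rw [sub_zero, abs_of_pos hs] at h2
  linarith

/-! ### the potential -/

lemma per_v {N : ℕ} {w U ρ : Fin N → ℝ} (hw : ∀ i, 0 ≤ w i) (hw1 : ∑ i, w i = 1)
    {r s a U' d Ur : ℝ} (hs : 0 ≤ s) (h1 : ∀ i, r ≤ ρ i) (h2 : ∀ i, ρ i ≤ r + s)
    (hL : ∀ i, |U i - Ur| ≤ ρ i - r) (hμ : |U' - ∑ i, w i * U i| ≤ d) :
    ∑ i, w i * ((U i - a) ^ 2 + s * (U i - ρ i)) ≤
      (U' - a) ^ 2 + s * (U' - r) + d * (2 * |U' - a| + d + s) := by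
  set μ := ∑ i, w i * U i with hμd
  have e1 : ∑ i, w i * ((U i - a) ^ 2 + s * (U i - ρ i)) =
      ∑ i, w i * ((U i - Ur) ^ 2 - s * (ρ i - r)) + (2 * (Ur - a) * (μ - Ur) + (Ur - a) ^ 2 +
        s * (μ - r)) := by
    have e2 : ∀ i, w i * ((U i - a) ^ 2 + s * (U i - ρ i)) =
        w i * ((U i - Ur) ^ 2 - s * (ρ i - r)) + ((2 * (Ur - a) + s) * (w i * U i) +
          w i * ((Ur - a) ^ 2 - 2 * (Ur - a) * Ur - s * r)) := fun i => by ring
    rw [Finset.sum_congr rfl fun i _ => e2 i, Finset.sum_add_distrib, Finset.sum_add_distrib,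
      ← Finset.mul_sum, wsum_const hw1]
    rw [← hμd]
    ring
  have e3 : ∑ i, w i * ((U i - Ur) ^ 2 - s * (ρ i - r)) ≤ 0 := by
    refine Finset.sum_nonpos fun i _ => ?_
    refine mul_nonpos_of_nonneg_of_nonpos (hw i) ?_
    have h3 : (U i - Ur) ^ 2 ≤ (ρ i - r) ^ 2 := by
      rw [← sq_abs]
      exact pow_le_pow_left₀ (abs_nonneg _) (hL i) 2
    have h4 := h1 i
    have h5 := h2 i
    nlinarith
  have e4 : (μ - a) ^ 2 ≤ (U' - a) ^ 2 + d * (2 * |U' - a| + d) := by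
    have h3 : μ - a = (U' - a) - (U' - μ) := by ring
    have h4 : (U' - a) * (U' - μ) ≥ - (|U' - a| * d) := by
      have h5 : |(U' - a) * (U' - μ)| ≤ |U' - a| * d := by
        rw [abs_mul]
        exact mul_le_mul_of_nonneg_left hμ (abs_nonneg _)
      exact (abs_le.1 h5).1
    have h6 : (U' - μ) ^ 2 ≤ d ^ 2 := by
      rw [← sq_abs]
      exact pow_le_pow_left₀ (abs_nonneg _) hμ 2
    rw [h3]
    nlinarith
  have e5 : s * (μ - r) ≤ s * (U' - r) + s * d := by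
    have := (abs_le.1 hμ).1
    have := mul_le_mul_of_nonneg_left (show μ - r ≤ U' - r + d by linarith) hs
    linarith
  rw [e1]
  nlinarith [sq_nonneg (μ - Ur)]

lemma exists_le_avg {N : ℕ} {w F : Fin N → ℝ} (hw : ∀ i, 0 ≤ w i) (hw1 : ∑ i, w i = 1) :
    ∃ i, F i ≤ ∑ i, w i * F i := by
  by_contra hcon
  push Not at hcon
  set S := ∑ i, w i * F i with hS
  have h1 : ∑ i, w i * (F i - S) = 0 := by
    simp only [mul_sub, Finset.sum_sub_distrib]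
    rw [wsum_const hw1, ← hS, sub_self]
  have h2 := (Finset.sum_eq_zero_iff_of_nonneg (fun i _ =>
    mul_nonneg (hw i) (by linarith [hcon i]))).1 h1
  have h3 : ∀ i, w i = 0 := by
    intro i
    rcases mul_eq_zero.1 (h2 i (Finset.mem_univ i)) with h4 | h4
    · exact h4
    · have := hcon i
      linarith
  simp [h3] at hw1

/-- the potential -/
def pot (U : ℝ → ℝ) (s : ℝ) (V : Finset E) (a : E → ℝ) (R : E) : ℝ :=
  ∑ v ∈ V, ((U ‖v + R‖ - a v) ^ 2 + s * (U ‖v + R‖ - ‖v + R‖))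

/-- the potential of a type -/
noncomputable def potT (U : ℝ → ℝ) (s : ℝ) (V : Finset E) (a : E → ℝ) (R : E) (σ : E → ℝ) : ℝ :=
  ∑ v ∈ V, ((U (s * σ (s⁻¹ • (v + R))) - a v) ^ 2 +
    s * (U (s * σ (s⁻¹ • (v + R))) - s * σ (s⁻¹ • (v + R))))

lemma potT_continuous {U : ℝ → ℝ} (hU : Continuous U) (s : ℝ) (V : Finset E) (a : E → ℝ) (R : E) :
    Continuous (potT U s V a R) := by
  unfold potT
  refine continuous_finsetSum _ fun v _ => ?_
  fun_prop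

lemma potT_norm (U : ℝ → ℝ) {s : ℝ} (hs : 0 < s) (V : Finset E) (a : E → ℝ) (R y : E) :
    potT U s V a R (fun x => ‖x + y‖) = pot U s V a (R + s • y) := by
  unfold potT pot
  refine Finset.sum_congr rfl fun v _ => ?_
  have h1 : s * ‖s⁻¹ • (v + R) + y‖ = ‖v + (R + s • y)‖ := by
    have h2 : v + (R + s • y) = s • (s⁻¹ • (v + R) + y) := by
      rw [smul_add, smul_smul, mul_inv_cancel₀ hs.ne', one_smul, add_assoc]
    rw [h2, norm_smul, Real.norm_eq_abs, abs_of_pos hs]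
  rw [h1]

theorem one_step {K : Set (E → ℝ)} (hK : K ⊆ KG wn E) {s : ℝ} (hs : 0 < s) {g : ℝ → ℝ}
    {u : ℕ → ℝ → ℝ} (h : Walk K s g u) (n : ℕ) (V : Finset E) (a : E → ℝ) (P : Finset (StrongDual ℝ E)) (R₀ : E)
    {ε : ℝ} (hε : 0 < ε) : ∃ y : E, ‖y‖ = 1 ∧
      pot (u n) s V a (R₀ + s • y) ≤ pot (u (n + 1)) s V a R₀ + ε ∧ (wn → ∀ φ ∈ P, |φ y| ≤ ε) := by
  -- choice of `δ`
  set B : ℝ := ∑ v ∈ V, (s + ‖v + R₀‖) * (2 * |u (n + 1) ‖v + R₀‖ - a v| + (s + ‖v + R₀‖) + s)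
    with hB
  have hB0 : 0 ≤ B := Finset.sum_nonneg fun v _ => by positivity
  set δ : ℝ := min 1 (ε / (2 * (B + 1))) with hδ
  have hδ0 : 0 < δ := by positivity
  have hδ1 : δ ≤ 1 := min_le_left _ _
  have hδ2 : δ * B ≤ ε / 2 := by
    have h1 : δ ≤ ε / (2 * (B + 1)) := min_le_right _ _
    calc δ * B ≤ ε / (2 * (B + 1)) * (B + 1) :=
          mul_le_mul h1 (by linarith) hB0 (by positivity)
      _ = ε / 2 := by field_simp
  obtain ⟨N, w, τ, hw, hw1, hτ, hst, -⟩ := h.step n δ hδ0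
  -- the average
  have havg : ∑ i, w i * potT (u n) s V a R₀ (τ i) ≤ pot (u (n + 1)) s V a R₀ + ε / 2 := by
    have h1 : ∑ i, w i * potT (u n) s V a R₀ (τ i) = ∑ v ∈ V, ∑ i, w i * ((u n (s * τ i (s⁻¹ • (v + R₀))) - a v) ^ 2 +
        s * (u n (s * τ i (s⁻¹ • (v + R₀))) - s * τ i (s⁻¹ • (v + R₀)))) := by
      simp only [potT, Finset.mul_sum]
      rw [Finset.sum_comm]
    have h2 : ∀ v ∈ V, ∑ i, w i * ((u n (s * τ i (s⁻¹ • (v + R₀))) - a v) ^ 2 +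
        s * (u n (s * τ i (s⁻¹ • (v + R₀))) - s * τ i (s⁻¹ • (v + R₀)))) ≤
        ((u (n + 1) ‖v + R₀‖ - a v) ^ 2 + s * (u (n + 1) ‖v + R₀‖ - ‖v + R₀‖)) +
        δ * ((s + ‖v + R₀‖) * (2 * |u (n + 1) ‖v + R₀‖ - a v| + (s + ‖v + R₀‖) + s)) := by
      intro v _
      have hns : ‖s⁻¹ • (v + R₀)‖ = s⁻¹ * ‖v + R₀‖ := by
        rw [norm_smul, norm_inv, Real.norm_eq_abs, abs_of_pos hs]
      have hr1 : ∀ i, ‖v + R₀‖ ≤ s * τ i (s⁻¹ • (v + R₀)) := by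
        intro i
        have h4 := KG_ge (hK (hτ i)) (s⁻¹ • (v + R₀))
        rw [hns] at h4
        have := mul_le_mul_of_nonneg_left h4 hs.le
        rwa [mul_inv_cancel_left₀ hs.ne'] at this
      have hr2 : ∀ i, s * τ i (s⁻¹ • (v + R₀)) ≤ ‖v + R₀‖ + s := by
        intro i
        have h4 := KG_le (hK (hτ i)) (s⁻¹ • (v + R₀))
        rw [hns] at h4
        have := mul_le_mul_of_nonneg_left h4 hs.le
        rw [mul_add, mul_inv_cancel_left₀ hs.ne'] at this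
        linarith
      have h3 := per_v (a := a v) (U' := u (n + 1) ‖v + R₀‖) (d := δ * (s + ‖v + R₀‖))
        (Ur := u n ‖v + R₀‖) (U := fun i => u n (s * τ i (s⁻¹ • (v + R₀)))) hw hw1 hs.le
        hr1 hr2 (fun i => by
          refine (h.lip n _ _).trans ?_
          rw [abs_of_nonneg (by linarith [hr1 i])]) (hst (v + R₀))
      refine h3.trans ?_
      have h4 : δ * (s + ‖v + R₀‖) ≤ s + ‖v + R₀‖ := by
        have : 0 ≤ s + ‖v + R₀‖ := by positivity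
        nlinarith
      have h5 : δ * (s + ‖v + R₀‖) * (2 * |u (n + 1) ‖v + R₀‖ - a v| + δ * (s + ‖v + R₀‖) + s) ≤
          δ * (s + ‖v + R₀‖) * (2 * |u (n + 1) ‖v + R₀‖ - a v| + (s + ‖v + R₀‖) + s) :=
        mul_le_mul_of_nonneg_left (by linarith) (by positivity)
      linarith
    rw [h1]
    refine (Finset.sum_le_sum h2).trans ?_
    rw [Finset.sum_add_distrib, ← Finset.mul_sum, ← hB]
    unfold pot
    linarith
  obtain ⟨i, hi⟩ := exists_le_avg (F := fun i => potT (u n) s V a R₀ (τ i)) hw hw1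
  have hun : Continuous (u n) := by
    refine (LipschitzWith.of_dist_le_mul (K := 1) fun a b => ?_).continuous
    rw [Real.dist_eq, Real.dist_eq, NNReal.coe_one, one_mul]
    exact h.lip n a b
  have hpT := potT_continuous hun s V a R₀
  have hopen : IsOpen {σ : E → ℝ | potT (u n) s V a R₀ σ < pot (u (n + 1)) s V a R₀ + ε} :=
    isOpen_lt hpT continuous_const
  obtain ⟨σ, hσ, y, hy, hyw, hlim, -⟩ := mem_closure_iff.1 (hK (hτ i)) _ hopen (by
    show potT (u n) s V a R₀ (τ i) < pot (u (n + 1)) s V a R₀ + ε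
    linarith)
  have hσ' : potT (u n) s V a R₀ σ < pot (u (n + 1)) s V a R₀ + ε := hσ
  have h2 : ∀ᶠ k in atTop, pot (u n) s V a (R₀ + s • y k) < pot (u (n + 1)) s V a R₀ + ε := by
    have h3 : Tendsto (fun k => potT (u n) s V a R₀ (fun x => ‖x + y k‖)) atTop
        (𝓝 (potT (u n) s V a R₀ σ)) :=
      (hpT.tendsto σ).comp (tendsto_pi_nhds.2 hlim)
    filter_upwards [h3.eventually (gt_mem_nhds hσ')] with k hk
    rwa [potT_norm _ hs] at hk
  have h3 : ∀ᶠ k in atTop, wn → ∀ φ ∈ P, |φ (y k)| ≤ ε := by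
    by_cases hwn : wn
    swap
    · exact Eventually.of_forall fun k h => absurd h hwn
    refine Eventually.mono (p := fun k => ∀ φ ∈ P, |φ (y k)| ≤ ε) ?_ fun k h _ => h
    rw [Finset.eventually_all]
    intro φ _
    have h4 : Tendsto (fun n => |φ (y n)|) atTop (𝓝 0) := by
      have := (hyw hwn φ).abs
      rwa [abs_zero] at this
    filter_upwards [h4.eventually (gt_mem_nhds hε)] with n hn
    exact hn.le
  obtain ⟨k, hk1, hk2⟩ := (h2.and h3).exists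
  exact ⟨y k, hy k, hk1.le, hk2⟩

theorem walk_pot {K : Set (E → ℝ)} (hK : K ⊆ KG wn E) {s : ℝ} (hs : 0 < s) {g : ℝ → ℝ}
    {u : ℕ → ℝ → ℝ} (h : Walk K s g u) (n : ℕ) (V : Finset E) (a : E → ℝ) (P : Finset (StrongDual ℝ E)) (R₀ : E)
    {ε : ℝ} (hε : 0 < ε) : ∃ R : E, ∑ v ∈ V, (‖v + R‖ - a v) ^ 2 ≤ pot (u n) s V a R₀ + ε ∧
      (wn → ∀ φ ∈ P, |φ R - φ R₀| ≤ ε) := by
  induction n generalizing R₀ ε with
  | zero =>
    refine ⟨R₀, ?_, fun _ φ _ => by rw [sub_self, abs_zero]; exact hε.le⟩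
    unfold pot
    simp only [h.zero, sub_self, mul_zero, add_zero]
    linarith
  | succ n ih =>
    obtain ⟨y, hy, h1, h2⟩ := one_step hK hs h n V a P R₀ (ε := min (ε / 2) (ε / (2 * s)))
      (by positivity)
    obtain ⟨R, h3, h4⟩ := ih (R₀ + s • y) (ε := ε / 2) (by positivity)
    refine ⟨R, ?_, fun hwn φ hφ => ?_⟩
    · have := min_le_left (ε / 2) (ε / (2 * s))
      linarith
    · have h5 := h2 hwn φ hφ
      have h6 := h4 hwn φ hφ
      rw [map_add, map_smul, smul_eq_mul] at h6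
      have h7 : |φ y| ≤ ε / (2 * s) := h5.trans (min_le_right _ _)
      have h8 : |s * φ y| ≤ ε / 2 := by
        rw [abs_mul, abs_of_pos hs]
        calc s * |φ y| ≤ s * (ε / (2 * s)) := mul_le_mul_of_nonneg_left h7 hs.le
          _ = ε / 2 := by field_simp
      rw [abs_le] at h6 h8 ⊢
      constructor <;> linarith [h6.1, h6.2, h8.1, h8.2]

/-- concentration -/
theorem walk_conc {K : Set (E → ℝ)} (hK : K ⊆ KG wn E) {s : ℝ} (hs : 0 < s) {g : ℝ → ℝ}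
    {u : ℕ → ℝ → ℝ} (h : Walk K s g u) (n : ℕ) (hn : u n 0 ≤ 2) (V : Finset E)
    (P : Finset (StrongDual ℝ E)) {ε : ℝ} (hε : 0 < ε) : ∃ R : E,
      (∀ v ∈ V, (‖v + R‖ - u n ‖v‖) ^ 2 ≤ 2 * s * V.card + ε) ∧ (wn → ∀ φ ∈ P, |φ R| ≤ ε) := by
  obtain ⟨R, h1, h2⟩ := walk_pot hK hs h n V (fun v => u n ‖v‖) P 0 hε
  refine ⟨R, fun v hv => ?_, fun hwn φ hφ => by simpa using h2 hwn φ hφ⟩
  have h3 : (‖v + R‖ - u n ‖v‖) ^ 2 ≤ ∑ v ∈ V, (‖v + R‖ - u n ‖v‖) ^ 2 :=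
    Finset.single_le_sum (f := fun v => (‖v + R‖ - u n ‖v‖) ^ 2) (fun v _ => sq_nonneg _) hv
  have h4 : pot (u n) s V (fun v => u n ‖v‖) 0 ≤ 2 * s * V.card := by
    unfold pot
    have h5 : ∀ v ∈ V, ((u n ‖v + 0‖ - u n ‖v‖) ^ 2 + s * (u n ‖v + 0‖ - ‖v + 0‖)) ≤ 2 * s := by
      intro v _
      rw [add_zero, sub_self]
      have h6 := (abs_le.1 (h.lip n ‖v‖ 0)).2
      rw [sub_zero, abs_norm] at h6
      nlinarith
    refine (Finset.sum_le_sum h5).trans ?_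
    rw [Finset.sum_const, nsmul_eq_mul]
    linarith
  linarith

end

end Pool.Agent.V5helper39.BG
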